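import Pool.Agent.Helper44.MT.Alg

/-!
# Symbols of weight two and level `Γ₁(r)` modulo `r = 3, 5, 7`: the theorem
-/

set_option autoImplicit false

namespace Pool.Agent.Helper44.MT

open Matrix

/-- Every nonzero vector is a multiple of a coprime one. -/
theorem exists_coprime (x : Fin 2 → ℤ) (hx : x ≠ 0) :
    ∃ n : ℤ, n ≠ 0 ∧ ∃ y : Fin 2 → ℤ, IsCoprime (y 0) (y 1) ∧ x = n • y := by
  have hg : 0 < Int.gcd (x 0) (x 1) := by
    rw [Int.gcd_pos_iff]
    by_contra h
    push Not at h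
    apply hx
    ext i
    fin_cases i
    · exact h.1
    · exact h.2
  obtain ⟨m', n', h1, h2, h3⟩ := Int.exists_gcd_one hg
  refine ⟨Int.gcd (x 0) (x 1), by exact_mod_cast hg.ne', ![m', n'], ?_, ?_⟩
  · exact Int.isCoprime_iff_gcd_eq_one.mpr h1
  · ext i
    fin_cases i
    · simp only [Fin.zero_eta, Pi.smul_apply, smul_eq_mul, Matrix.cons_val_zero]
      rw [mul_comm]; exact h2
    · simp only [Fin.mk_one, Pi.smul_apply, smul_eq_mul, Matrix.cons_val_one]
      rw [mul_comm]; exact h3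

theorem ne_zero_of_coprime {x : Fin 2 → ℤ} (hx : IsCoprime (x 0) (x 1)) : x ≠ 0 := by
  rintro rfl
  obtain ⟨u, v, huv⟩ := hx
  simp at huv

/-- The reduction of a coprime vector is not zero. -/
theorem red_ne_zero {r : ℕ} [Fact r.Prime] {x : Fin 2 → ℤ} (hx : IsCoprime (x 0) (x 1)) :
    (fun i => (x i : ZMod r)) ≠ 0 := by
  intro h
  obtain ⟨u, v, huv⟩ := hx
  have h0 : (x 0 : ZMod r) = 0 := congrFun h 0
  have h1 : (x 1 : ZMod r) = 0 := congrFun h 1
  have h2 := congrArg (Int.cast : ℤ → ZMod r) huv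
  push_cast at h2
  rw [h0, h1, mul_zero, mul_zero, add_zero] at h2
  exact zero_ne_one h2

section

variable {H K : Type*} [AddCommGroup K] {m : Matrix (Fin 2) (Fin 2) ℤ → H → H}
  {f : Cochain2 H K}

theorem IsSymbol2.self (hf : IsSymbol2 m f) (x : Fin 2 → ℤ) (h : H) : f x x h = 0 := by
  by_cases hx : x = 0
  · rw [hx, hf.zero_left]
  · have := hf.trans x x x hx hx hx h
    simpa using this

theorem IsSymbol2.anti (hf : IsSymbol2 m f) (x y : Fin 2 → ℤ) (h : H) :
    f y x h = -f x y h := by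
  by_cases hx : x = 0
  · rw [hx, hf.zero_left, hf.zero_right, neg_zero]
  · by_cases hy : y = 0
    · rw [hy, hf.zero_left, hf.zero_right, neg_zero]
    · have := hf.trans x y x hx hy hx h
      rw [hf.self] at this
      exact eq_neg_of_add_eq_zero_right this

theorem IsSymbol2.scale' (hf : IsSymbol2 m f) (n : ℤ) (hn : n ≠ 0) (x y : Fin 2 → ℤ) (h : H) :
    f x (n • y) h = f x y h := by
  rw [hf.anti, hf.scale n hn, ← hf.anti]

theorem IsSymbol2.inv' (hf : IsSymbol2 m f) (g : Matrix (Fin 2) (Fin 2) ℤ) (hg : g.det = 1)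
    (x y : Fin 2 → ℤ) (h : H) : f (g *ᵥ x) (g *ᵥ y) (m g h) = f x y h :=
  congrFun (congrFun (congrFun (hf.inv g hg) x) y) h

end

/-- Symbols of weight two with values in a field of characteristic `r = 3, 5, 7` and level
`Γ₁(r)`. -/
theorem lemD {K : Type*} [Field K] {r : ℕ} [Fact r.Prime] [CharP K r] {p m : ℕ}
    (hr : r = 3 ∨ r = 5 ∨ r = 7) (hp : p.Prime) (hm : (p : ZMod r) ^ m = -1) :
    Regular2 K (mvec r) p (fun f => ∀ x y, f x y 0 = 0) := by
  intro f a c hf hf0 hT hR hac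
  have hp0 : (p : ZMod r) ≠ 0 := by
    intro hp0
    have h1r : (1 : ZMod r) ≠ 0 := one_ne_zero
    rcases Nat.eq_zero_or_pos m with rfl | hm0
    · rw [pow_zero] at hm
      have h3 : (2 : ZMod r) = 0 := by linear_combination hm
      have h4 : ((2 : ℕ) : ZMod r) = 0 := by simpa using h3
      rw [ZMod.natCast_eq_zero_iff] at h4
      rcases hr with rfl | rfl | rfl <;> norm_num at h4
    · rw [hp0, zero_pow hm0.ne'] at hm
      exact h1r (by linear_combination hm)
  have hpz : (p : ℤ) ≠ 0 := by exact_mod_cast hp.ne_zero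
  set F : ZMod r → ZMod r → K := fun c d => f ![0, 1] ![1, 0] ![c, d] with hFdef
  have hFh : ∀ h : Fin 2 → ZMod r, f ![0, 1] ![1, 0] h = F (h 0) (h 1) := by
    intro h
    have : h = ![h 0, h 1] := by
      ext i; fin_cases i <;> rfl
    rw [hFdef]
    dsimp only
    rw [← this]
  -- values of `mvec`
  have hmv : ∀ (α β γ δ : ℤ) (c d : ZMod r), mvec r !![α, β; γ, δ] ![c, d] =
      ![α * c + β * d, γ * c + δ * d] := by
    intro α β γ δ c d
    ext i
    fin_cases i <;> simp [mvec, Matrix.mulVec, dotProduct, Fin.sum_univ_two]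
  have hmz : ∀ (α β γ δ : ℤ) (c d : ℤ), !![α, β; γ, δ] *ᵥ ![c, d] =
      ![α * c + β * d, γ * c + δ * d] := by
    intro α β γ δ c d
    ext i
    fin_cases i <;> simp [Matrix.mulVec, dotProduct, Fin.sum_univ_two]
  have hF : Rel F := by
    constructor
    · intro c d
      have h1 := hf.inv' !![0, -1; 1, 0] (by simp [Matrix.det_fin_two]) ![0, 1] ![1, 0] ![c, d]
      rw [hmz, hmz, hmv] at h1
      have h2 : (![0 * 0 + -1 * 1, 1 * 0 + 0 * 1] : Fin 2 → ℤ) = (-1 : ℤ) • ![1, 0] := by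
        ext i; fin_cases i <;> simp
      have h3 : (![0 * 1 + -1 * 0, 1 * 1 + 0 * 0] : Fin 2 → ℤ) = ![0, 1] := by
        ext i; fin_cases i <;> simp
      have h4 : (![((0 : ℤ) : ZMod r) * c + ((-1 : ℤ) : ZMod r) * d,
          ((1 : ℤ) : ZMod r) * c + ((0 : ℤ) : ZMod r) * d] : Fin 2 → ZMod r) = ![-d, c] := by
        ext i; fin_cases i <;> simp
      rw [h2, h3, h4, hf.scale _ (by norm_num)] at h1
      change f ![0, 1] ![1, 0] ![-d, c] = -f ![0, 1] ![1, 0] ![c, d]
      rw [← h1, hf.anti ![1, 0] ![0, 1]]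
    · intro c d
      have hI : ∀ c d : ZMod r, f ![1, 1] ![0, 1] ![-d, c - d] = F c d := by
        intro c d
        have h1 := hf.inv' !![0, -1; 1, -1] (by simp [Matrix.det_fin_two]) ![0, 1] ![1, 0] ![c, d]
        rw [hmz, hmz, hmv] at h1
        have h2 : (![0 * 0 + -1 * 1, 1 * 0 + -1 * 1] : Fin 2 → ℤ) = (-1 : ℤ) • ![1, 1] := by
          ext i; fin_cases i <;> simp
        have h3 : (![0 * 1 + -1 * 0, 1 * 1 + -1 * 0] : Fin 2 → ℤ) = ![0, 1] := by
          ext i; fin_cases i <;> simp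
        have h4 : (![((0 : ℤ) : ZMod r) * c + ((-1 : ℤ) : ZMod r) * d,
            ((1 : ℤ) : ZMod r) * c + ((-1 : ℤ) : ZMod r) * d] : Fin 2 → ZMod r) =
            ![-d, c - d] := by
          ext i; fin_cases i <;> simp [sub_eq_add_neg]
        rw [h2, h3, h4, hf.scale _ (by norm_num)] at h1
        exact h1
      have hII : ∀ c d : ZMod r, f ![1, 0] ![1, 1] ![-d, c - d] = f ![1, 1] ![0, 1] ![c, d] := by
        intro c d
        have h1 := hf.inv' !![0, -1; 1, -1] (by simp [Matrix.det_fin_two]) ![1, 1] ![0, 1] ![c, d]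
        rw [hmz, hmz, hmv] at h1
        have h2 : (![0 * 0 + -1 * 1, 1 * 0 + -1 * 1] : Fin 2 → ℤ) = (-1 : ℤ) • ![1, 1] := by
          ext i; fin_cases i <;> simp
        have h3 : (![0 * 1 + -1 * 1, 1 * 1 + -1 * 1] : Fin 2 → ℤ) = (-1 : ℤ) • ![1, 0] := by
          ext i; fin_cases i <;> simp
        have h4 : (![((0 : ℤ) : ZMod r) * c + ((-1 : ℤ) : ZMod r) * d,
            ((1 : ℤ) : ZMod r) * c + ((-1 : ℤ) : ZMod r) * d] : Fin 2 → ZMod r) =
            ![-d, c - d] := by
          ext i; fin_cases i <;> simp [sub_eq_add_neg]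
        rw [h2, h3, h4, hf.scale _ (by norm_num), hf.scale' _ (by norm_num)] at h1
        exact h1
      have h1 : f ![1, 1] ![0, 1] ![c, d] = F (d - c) (-c) := by
        rw [← hI (d - c) (-c)]
        congr 1
        ext i; fin_cases i <;> simp
      have h2 : f ![1, 0] ![1, 1] ![c, d] = F (-d) (c - d) := by
        have h3 := hII (d - c) (-c)
        have h4 := hI (-d) (c - d)
        have h5 : (![-(-c), d - c - -c] : Fin 2 → ZMod r) = ![c, d] := by
          ext i; fin_cases i <;> simp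
        have h6 : (![-(c - d), -d - (c - d)] : Fin 2 → ZMod r) = ![d - c, -c] := by
          congr 1
          · ring
          · congr 1
            ring
        rw [h5] at h3
        rw [h6] at h4
        rw [h3, h4]
      have he1 : (![1, 0] : Fin 2 → ℤ) ≠ 0 := by
        intro h; simpa using congrFun h 0
      have he2 : (![0, 1] : Fin 2 → ℤ) ≠ 0 := by
        intro h; simpa using congrFun h 1
      have hs : (![1, 1] : Fin 2 → ℤ) ≠ 0 := by
        intro h; simpa using congrFun h 0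
      have h3 := hf.trans _ _ _ he2 he1 hs ![c, d]
      have h4 := hf.trans _ _ _ he2 hs he2 ![c, d]
      rw [hf.self] at h4
      rw [h2] at h3
      rw [h1] at h4
      change f ![0, 1] ![1, 0] ![c, d] + F (-d) (c - d) + F (d - c) (-c) = 0
      rw [h3, h4]
  -- the boundary formula
  have hmain : ∀ x y : Fin 2 → ℤ, IsCoprime (x 0) (x 1) → IsCoprime (y 0) (y 1) → ∀ h, h ≠ 0 →
      f y x h = psi F (fun i => (x i : ZMod r)) h - psi F (fun i => (y i : ZMod r)) h := by
    intro x y hx hy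
    have := gen (fun x y => x ≠ 0 ∧ y ≠ 0 ∧ ∀ h, h ≠ 0 →
      f y x h = psi F (fun i => (x i : ZMod r)) h - psi F (fun i => (y i : ZMod r)) h)
      ?_ ?_ ?_ ?_ x y hx hy
    · exact this.2.2
    · rintro x y ⟨hx, hy, h1⟩
      refine ⟨hy, hx, fun h hh => ?_⟩
      rw [hf.anti, h1 h hh]
      ring
    · rintro x y z _ _ _ ⟨hx, hy, h1⟩ ⟨_, hz, h2⟩
      refine ⟨hx, hz, fun h hh => ?_⟩
      rw [← hf.trans z y x hz hy hx, h1 h hh, h2 h hh]
      ring
    · intro x hx
      have hx0 := ne_zero_of_coprime hx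
      refine ⟨hx0, neg_ne_zero.mpr hx0, fun h hh => ?_⟩
      have h1 : -x = (-1 : ℤ) • x := by simp
      have h2 : (fun i => (((-x) i : ℤ) : ZMod r)) = -(fun i => (x i : ZMod r)) := by
        ext i
        simp
      rw [h2, psi_neg hF hr (red_ne_zero hx) hh, h1, hf.scale _ (by norm_num), hf.self, sub_self]
    · intro x y hxy
      have hx0 : x ≠ 0 := by
        rintro rfl
        simp at hxy
      have hy0 : y ≠ 0 := by
        rintro rfl
        simp at hxy
      refine ⟨hx0, hy0, fun h hh => ?_⟩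
      set g : Matrix (Fin 2) (Fin 2) ℤ := !![x 0, y 0; x 1, y 1] with hg
      have hdet : g.det = 1 := by
        rw [hg, Matrix.det_fin_two_of]
        linear_combination hxy
      have hge1 : g *ᵥ ![1, 0] = x := by
        rw [hg, hmz]
        ext i; fin_cases i <;> simp
      have hge2 : g *ᵥ ![0, 1] = y := by
        rw [hg, hmz]
        ext i; fin_cases i <;> simp
      set gb : Matrix (Fin 2) (Fin 2) (ZMod r) := g.map (Int.cast : ℤ → ZMod r) with hgb
      have hdetb : gb.det = 1 := by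
        have h1 := RingHom.map_det (Int.castRingHom (ZMod r)) g
        rw [hdet, map_one] at h1
        exact h1.symm
      set h' : Fin 2 → ZMod r := gb.adjugate *ᵥ h with hh'
      have h1 : mvec r g h' = h := by
        change gb *ᵥ (gb.adjugate *ᵥ h) = h
        rw [Matrix.mulVec_mulVec, Matrix.mul_adjugate, hdetb, one_smul, Matrix.one_mulVec]
      have h1' : gb *ᵥ h' = h := h1
      have h2 : h' ≠ 0 := by
        intro h2
        rw [h2, Matrix.mulVec_zero] at h1'
        exact hh h1'.symm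
      have h3 := hf.inv' g hdet ![0, 1] ![1, 0] h'
      rw [hge1, hge2, h1, hFh, F_eq_psi hF hr h' h2] at h3
      have he1 : (![1, 0] : Fin 2 → ZMod r) ≠ 0 := by
        intro h1; simpa using congrFun h1 0
      have he2 : (![0, 1] : Fin 2 → ZMod r) ≠ 0 := by
        intro h1; simpa using congrFun h1 1
      have h4 : gb *ᵥ ![1, 0] = fun i => (x i : ZMod r) := by
        ext i; fin_cases i <;> simp [hgb, hg, Matrix.mulVec, dotProduct, Fin.sum_univ_two]
      have h5 : gb *ᵥ ![0, 1] = fun i => (y i : ZMod r) := by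
        ext i; fin_cases i <;> simp [hgb, hg, Matrix.mulVec, dotProduct, Fin.sum_univ_two]
      rw [h3, ← h4, ← h5]
      conv_rhs => rw [← h1']
      rw [psi_mul gb hdetb he1, psi_mul gb hdetb he2]
  -- the Hecke equation
  have he1c : IsCoprime ((![1, 0] : Fin 2 → ℤ) 0) ((![1, 0] : Fin 2 → ℤ) 1) := by
    simpa using isCoprime_one_left
  have hip : ∀ i : ℕ, i < p - 1 → IsCoprime ((![((i + 1 : ℕ) : ℤ), (p : ℤ)] : Fin 2 → ℤ) 0)
      ((![((i + 1 : ℕ) : ℤ), (p : ℤ)] : Fin 2 → ℤ) 1) := by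
    intro i hi
    change IsCoprime ((i + 1 : ℕ) : ℤ) (p : ℤ)
    rw [Nat.isCoprime_iff_coprime]
    exact (Nat.coprime_of_lt_prime (by omega) (by omega) hp).symm
  have hHecke : ∀ c d : ZMod r, (![c, d] : Fin 2 → ZMod r) ≠ 0 →
      F (p * c) d + F c (p * d) + ∑ i ∈ Finset.range (p - 1),
        (psi F ![1, 0] ![c + (i + 1) * d, p * d] -
          psi F ![(i : ZMod r) + 1, p] ![c + (i + 1) * d, p * d]) = a * F c d := by
    intro c d hcd
    have h1 := congrFun (congrFun (congrFun hT ![0, 1]) ![1, 0]) ![c, d]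
    simp only [T2, Pi.add_apply, Finset.sum_apply, Pi.smul_apply, smul_eq_mul, act2] at h1
    have h2 : f (!![(p : ℤ), 0; 0, 1] *ᵥ ![0, 1]) (!![(p : ℤ), 0; 0, 1] *ᵥ ![1, 0])
        (mvec r !![(p : ℤ), 0; 0, 1] ![c, d]) = F (p * c) d := by
      rw [hmz, hmz, hmv]
      have h3 : (![(p : ℤ) * 0 + 0 * 1, 0 * 0 + 1 * 1] : Fin 2 → ℤ) = ![0, 1] := by
        ext i; fin_cases i <;> simp
      have h4 : (![(p : ℤ) * 1 + 0 * 0, 0 * 1 + 1 * 0] : Fin 2 → ℤ) = (p : ℤ) • ![1, 0] := by
        ext i; fin_cases i <;> simp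
      have h5 : (![((p : ℤ) : ZMod r) * c + ((0 : ℤ) : ZMod r) * d,
          ((0 : ℤ) : ZMod r) * c + ((1 : ℤ) : ZMod r) * d] : Fin 2 → ZMod r) = ![p * c, d] := by
        ext i; fin_cases i <;> simp
      rw [h3, h4, h5, hf.scale' _ hpz]
    have h6 : ∀ i : ℕ, f (!![1, (i : ℤ); 0, (p : ℤ)] *ᵥ ![0, 1])
        (!![1, (i : ℤ); 0, (p : ℤ)] *ᵥ ![1, 0]) (mvec r !![1, (i : ℤ); 0, (p : ℤ)] ![c, d]) =
        f ![(i : ℤ), (p : ℤ)] ![1, 0] ![c + i * d, p * d] := by
      intro i
      rw [hmz, hmz, hmv]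
      have h3 : (![1 * 0 + (i : ℤ) * 1, 0 * 0 + (p : ℤ) * 1] : Fin 2 → ℤ) = ![(i : ℤ), (p : ℤ)] := by
        ext i; fin_cases i <;> simp
      have h4 : (![1 * 1 + (i : ℤ) * 0, 0 * 1 + (p : ℤ) * 0] : Fin 2 → ℤ) = ![1, 0] := by
        ext i; fin_cases i <;> simp
      have h5 : (![((1 : ℤ) : ZMod r) * c + ((i : ℤ) : ZMod r) * d,
          ((0 : ℤ) : ZMod r) * c + ((p : ℤ) : ZMod r) * d] : Fin 2 → ZMod r) =
          ![c + i * d, p * d] := by
        ext i; fin_cases i <;> simp
      rw [h3, h4, h5]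
    rw [h2, Finset.sum_congr rfl (fun i _ => h6 i)] at h1
    have h7 : Finset.range p = Finset.range ((p - 1) + 1) := by
      rw [Nat.sub_add_cancel hp.one_le]
    rw [h7, Finset.sum_range_succ'] at h1
    have h8 : f ![((0 : ℕ) : ℤ), (p : ℤ)] ![1, 0] ![c + ((0 : ℕ) : ZMod r) * d, p * d] =
        F c (p * d) := by
      have h3 : (![((0 : ℕ) : ℤ), (p : ℤ)] : Fin 2 → ℤ) = (p : ℤ) • ![0, 1] := by
        ext i; fin_cases i <;> simp
      have h4 : (![c + ((0 : ℕ) : ZMod r) * d, p * d] : Fin 2 → ZMod r) = ![c, p * d] := by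
        ext i; fin_cases i <;> simp
      rw [h3, h4, hf.scale _ hpz]
    have h9 : ∀ i ∈ Finset.range (p - 1), f ![((i + 1 : ℕ) : ℤ), (p : ℤ)] ![1, 0]
        ![c + ((i + 1 : ℕ) : ZMod r) * d, p * d] =
        psi F ![1, 0] ![c + (i + 1) * d, p * d] -
          psi F ![(i : ZMod r) + 1, p] ![c + (i + 1) * d, p * d] := by
      intro i hi
      have hne : (![c + ((i + 1 : ℕ) : ZMod r) * d, p * d] : Fin 2 → ZMod r) ≠ 0 := by
        intro h
        have h3 : c + ((i + 1 : ℕ) : ZMod r) * d = 0 := congrFun h 0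
        have h4 : (p : ZMod r) * d = 0 := congrFun h 1
        have h5 : d = 0 := (mul_eq_zero.mp h4).resolve_left hp0
        rw [h5, mul_zero, add_zero] at h3
        apply hcd
        ext j
        fin_cases j
        · exact h3
        · exact h5
      rw [hmain ![1, 0] ![((i + 1 : ℕ) : ℤ), (p : ℤ)] he1c (hip i (Finset.mem_range.mp hi)) _ hne]
      have h3 : (fun j => (((![1, 0] : Fin 2 → ℤ) j : ℤ) : ZMod r)) = ![1, 0] := by
        ext j; fin_cases j <;> simp
      have h4 : (fun j => (((![((i + 1 : ℕ) : ℤ), (p : ℤ)] : Fin 2 → ℤ) j : ℤ) : ZMod r)) =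
          ![(i : ZMod r) + 1, p] := by
        ext j; fin_cases j <;> simp
      rw [h3, h4]
      push_cast
      rfl
    rw [h8, Finset.sum_congr rfl h9] at h1
    change _ = a * F c d at h1
    rw [← h1]
    ring
  have hp1 : ((p - 1 : ℕ) : K) = p - 1 := by
    rw [Nat.cast_sub hp.one_le, Nat.cast_one]
  have h00 : F 0 0 = 0 := by
    have h1 : (![0, 0] : Fin 2 → ZMod r) = 0 := by
      ext i; fin_cases i <;> rfl
    change f ![0, 1] ![1, 0] ![0, 0] = 0
    rw [h1, hf0]
  have hvan := vanish (K := K) hr hF hm hac h00 ?_ ?_ ?_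
  · -- all values vanish
    have hpsi : ∀ x h : Fin 2 → ZMod r, psi F x h = 0 := by
      intro x h
      unfold psi
      split_ifs <;> simp [hvan]
    funext x y h
    by_cases hh : h = 0
    · rw [hh, hf0]; rfl
    · by_cases hx : x = 0
      · rw [hx, hf.zero_left]; rfl
      · by_cases hy : y = 0
        · rw [hy, hf.zero_right]; rfl
        · obtain ⟨n, hn, x', hx', rfl⟩ := exists_coprime x hx
          obtain ⟨k, hk, y', hy', rfl⟩ := exists_coprime y hy
          rw [hf.scale _ hn, hf.scale' _ hk, hmain y' x' hy' hx' h hh, hpsi, hpsi]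
          simp
  · -- first equation
    intro d e hd he
    have hne : (![d, e] : Fin 2 → ZMod r) ≠ 0 := by
      intro h
      exact hd (congrFun h 0)
    have h1 := hHecke d e hne
    have h2 : ∀ i ∈ Finset.range (p - 1),
        psi F ![1, 0] ![d + ((i : ZMod r) + 1) * e, p * e] -
          psi F ![(i : ZMod r) + 1, p] ![d + ((i : ZMod r) + 1) * e, p * e] =
        F 1 (p * e) - F 1 (p * d) := by
      intro i _
      have h3 : (![1, 0] : Fin 2 → ZMod r) 0 * (![d + ((i : ZMod r) + 1) * e, p * e] :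
          Fin 2 → ZMod r) 1 - (![1, 0] : Fin 2 → ZMod r) 1 *
          (![d + ((i : ZMod r) + 1) * e, p * e] : Fin 2 → ZMod r) 0 = p * e := by
        simp
      have h4 : (![(i : ZMod r) + 1, (p : ZMod r)] : Fin 2 → ZMod r) 0 *
          (![d + ((i : ZMod r) + 1) * e, p * e] : Fin 2 → ZMod r) 1 -
          (![(i : ZMod r) + 1, (p : ZMod r)] : Fin 2 → ZMod r) 1 *
          (![d + ((i : ZMod r) + 1) * e, p * e] : Fin 2 → ZMod r) 0 = -(p * d) := by
        simp only [Matrix.cons_val_zero, Matrix.cons_val_one]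
        ring
      rw [psi_of_ne (by rw [h3]; exact mul_ne_zero hp0 he), h3,
        psi_of_ne (by rw [h4]; exact neg_ne_zero.mpr (mul_ne_zero hp0 hd)), h4,
        hF.even hr _ (mul_ne_zero hp0 hd)]
    rw [Finset.sum_congr rfl h2, Finset.sum_const, Finset.card_range, nsmul_eq_mul, hp1,
      hF.star hr _ _ (mul_ne_zero hp0 hd) he, hF.star hr _ _ hd (mul_ne_zero hp0 he),
      hF.star hr _ _ hd he] at h1
    linear_combination h1
  · -- second equation
    intro t ht
    have hne : (![t, 0] : Fin 2 → ZMod r) ≠ 0 := by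
      intro h
      exact ht (congrFun h 0)
    have h1 := hHecke t 0 hne
    have h2 : ∀ i ∈ Finset.range (p - 1),
        psi F ![1, 0] ![t + ((i : ZMod r) + 1) * 0, p * 0] -
          psi F ![(i : ZMod r) + 1, p] ![t + ((i : ZMod r) + 1) * 0, p * 0] =
        F t 0 + F 1 t - F 1 (p * t) := by
      intro i _
      have h3 : (![t + ((i : ZMod r) + 1) * 0, p * 0] : Fin 2 → ZMod r) = t • ![1, 0] := by
        ext i; fin_cases i <;> simp
      have he1 : (![1, 0] : Fin 2 → ZMod r) ≠ 0 := by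
        intro h1; simpa using congrFun h1 0
      have h4 : (![(i : ZMod r) + 1, (p : ZMod r)] : Fin 2 → ZMod r) 0 *
          (t • ![1, 0] : Fin 2 → ZMod r) 1 -
          (![(i : ZMod r) + 1, (p : ZMod r)] : Fin 2 → ZMod r) 1 *
          (t • ![1, 0] : Fin 2 → ZMod r) 0 = -(p * t) := by
        simp
      rw [h3, psi_smul he1,
        psi_of_ne (by rw [h4]; exact neg_ne_zero.mpr (mul_ne_zero hp0 ht)), h4,
        hF.even hr _ (mul_ne_zero hp0 ht)]
    rw [Finset.sum_congr rfl h2, Finset.sum_const, Finset.card_range, nsmul_eq_mul, hp1,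
      mul_zero] at h1
    linear_combination h1
  · -- third equation
    intro d e
    have h1 := congrFun (congrFun (congrFun hR ![0, 1]) ![1, 0]) ![d, e]
    simp only [R2, Pi.smul_apply, smul_eq_mul, act2] at h1
    rw [hmz, hmz, hmv] at h1
    have h2 : (![(p : ℤ) * 0 + 0 * 1, 0 * 0 + (p : ℤ) * 1] : Fin 2 → ℤ) = (p : ℤ) • ![0, 1] := by
      ext i; fin_cases i <;> simp
    have h3 : (![(p : ℤ) * 1 + 0 * 0, 0 * 1 + (p : ℤ) * 0] : Fin 2 → ℤ) = (p : ℤ) • ![1, 0] := by
      ext i; fin_cases i <;> simp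
    have h4 : (![((p : ℤ) : ZMod r) * d + ((0 : ℤ) : ZMod r) * e,
        ((0 : ℤ) : ZMod r) * d + ((p : ℤ) : ZMod r) * e] : Fin 2 → ZMod r) =
        ![p * d, p * e] := by
      ext i; fin_cases i <;> simp
    rw [h2, h3, h4, hf.scale _ hpz, hf.scale' _ hpz] at h1
    exact h1

end Pool.Agent.Helper44.MT
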