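import Pool.Agent.Helper44.MT.Defs

/-!
# Every weight is weight two modulo `r`
-/

set_option autoImplicit false

namespace Pool.Agent.Helper44.MT

open MvPolynomial Matrix

section subst

variable {R S : Type*} [CommRing R] [CommRing S]

theorem subst_subst (g h : Matrix (Fin 2) (Fin 2) R) (P : MvPolynomial (Fin 2) R) :
    subst h (subst g P) = subst (g * h) P := by
  have : (aeval (fun i => ∑ j, C (h i j) * X j)).comp
      (aeval (fun i => ∑ j, C (g i j) * X j) : MvPolynomial (Fin 2) R →ₐ[R] _) =
      (aeval (fun i => ∑ j, C ((g * h) i j) * X j) :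
        MvPolynomial (Fin 2) R →ₐ[R] MvPolynomial (Fin 2) R) := by
    ext1 i
    simp only [AlgHom.comp_apply, aeval_X, map_mul, algHom_C, algebraMap_eq,
      Fin.sum_univ_two, Matrix.mul_apply, map_add]
    ring
  exact DFunLike.congr_fun this P

theorem subst_one (P : MvPolynomial (Fin 2) R) : subst 1 P = P := by
  have : (aeval (fun i => ∑ j, C ((1 : Matrix (Fin 2) (Fin 2) R) i j) * X j) :
      MvPolynomial (Fin 2) R →ₐ[R] MvPolynomial (Fin 2) R) = AlgHom.id R _ := by
    ext1 i
    fin_cases i <;> simp [Matrix.one_apply]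
  exact DFunLike.congr_fun this P

theorem map_subst (φ : R →+* S) (g : Matrix (Fin 2) (Fin 2) R) (P : MvPolynomial (Fin 2) R) :
    map φ (subst g P) = subst (g.map φ) (map φ P) := by
  have : (map φ).comp (aeval (fun i => ∑ j, C (g i j) * X j) :
      MvPolynomial (Fin 2) R →ₐ[R] MvPolynomial (Fin 2) R).toRingHom =
      (aeval (fun i => ∑ j, C ((g.map φ) i j) * X j) :
        MvPolynomial (Fin 2) S →ₐ[S] MvPolynomial (Fin 2) S).toRingHom.comp (map φ) := by
    apply MvPolynomial.ringHom_ext
    · intro r
      simp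
    · intro i
      simp [Fin.sum_univ_two]
  exact DFunLike.congr_fun this P

theorem constantCoeff_subst (g : Matrix (Fin 2) (Fin 2) R) (P : MvPolynomial (Fin 2) R) :
    constantCoeff (subst g P) = constantCoeff P := by
  have : (constantCoeff).comp (aeval (fun i => ∑ j, C (g i j) * X j) :
      MvPolynomial (Fin 2) R →ₐ[R] MvPolynomial (Fin 2) R).toRingHom =
      (constantCoeff : MvPolynomial (Fin 2) R →+* R) := by
    apply MvPolynomial.ringHom_ext
    · intro r
      simp
    · intro i
      simp [Fin.sum_univ_two]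
  exact DFunLike.congr_fun this P

end subst

/-- In characteristic `r` only the polynomial modulo `r` matters. -/
theorem mod_eq {A : Type*} [Field A] {r : ℕ} [CharP A r] {k N : ℕ}
    {f : Cochain N A} (hf : IsSymbol k f) (x y : Fin 2 → ℤ) (H : Matrix (Fin 2) (Fin 2) (ZMod N))
    {P Q : MvPolynomial (Fin 2) ℤ}
    (h : map (Int.castRingHom (ZMod r)) P = map (Int.castRingHom (ZMod r)) Q) :
    f x y H P = f x y H Q := by
  have h1 : C (r : ℤ) ∣ P - Q := by
    rw [MvPolynomial.C_dvd_iff_zmod, map_sub, h, sub_self]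
  obtain ⟨S, hS⟩ := h1
  let φ : MvPolynomial (Fin 2) ℤ →+ A := AddMonoidHom.mk' (f x y H) (hf.poly x y H)
  have h2 : φ P - φ Q = 0 := by
    rw [← map_sub, hS]
    have h3 : C (r : ℤ) * S = r • S := by
      rw [nsmul_eq_mul]
      simp
    rw [h3, map_nsmul, nsmul_eq_mul, CharP.cast_eq_zero, zero_mul]
  exact sub_eq_zero.mp h2

/-- Every weight is weight two modulo `r`. -/
theorem lemW {A : Type*} [Field A] {r : ℕ} [Fact r.Prime] [CharP A r] {k N p : ℕ} (hr : r ∣ N)
    (h : Regular2 A (mfull N) p (fun _ => True)) : Regular A k N p := by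
  intro f a c hf hT hR hac
  funext x0 y0 H0 P0
  set lift : Matrix (Fin 2) (Fin 2) (ZMod N) → Matrix (Fin 2) (Fin 2) ℤ := fun H =>
    H.map (fun z => (z.cast : ℤ)) with hlift
  have hlift1 : ∀ H, (lift H).map (Int.cast : ℤ → ZMod N) = H := by
    intro H
    ext i j
    simp [hlift]
  have hmodr : ∀ g g' : Matrix (Fin 2) (Fin 2) ℤ,
      g.map (Int.cast : ℤ → ZMod N) = g'.map (Int.cast : ℤ → ZMod N) →
      g.map (Int.castRingHom (ZMod r)) = g'.map (Int.castRingHom (ZMod r)) := by
    intro g g' hg
    ext i j
    have h1 : ((g i j : ℤ) : ZMod N) = ((g' i j : ℤ) : ZMod N) := congrFun (congrFun hg i) j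
    rw [ZMod.intCast_eq_intCast_iff_dvd_sub] at h1
    simp only [Matrix.map_apply, eq_intCast]
    rw [ZMod.intCast_eq_intCast_iff_dvd_sub]
    exact (Int.natCast_dvd_natCast.mpr hr).trans h1
  have hadj : ∀ (g g' : Matrix (Fin 2) (Fin 2) ℤ) (P : MvPolynomial (Fin 2) ℤ),
      g.map (Int.cast : ℤ → ZMod N) = g'.map (Int.cast : ℤ → ZMod N) →
      map (Int.castRingHom (ZMod r)) (subst g.adjugate P) =
        map (Int.castRingHom (ZMod r)) (subst g'.adjugate P) := by
    intro g g' P hg
    rw [map_subst, map_subst]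
    congr 1
    have h1 := hmodr g g' hg
    have h2 := RingHom.map_adjugate (Int.castRingHom (ZMod r)) g
    have h3 := RingHom.map_adjugate (Int.castRingHom (ZMod r)) g'
    simp only [RingHom.mapMatrix_apply] at h2 h3
    rw [h2, h3, h1]
  set F : Cochain2 (Matrix (Fin 2) (Fin 2) (ZMod N)) A := fun x y H =>
    f x y (H * H0) (subst (lift H).adjugate P0) with hF
  have key : ∀ (g : Matrix (Fin 2) (Fin 2) ℤ) x y H,
      act2 (mfull N) g F x y H = act g f x y (H * H0) (subst (lift H).adjugate P0) := by
    intro g x y H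
    simp only [act2, act, hF, mfull]
    rw [Matrix.mul_assoc, subst_subst, ← Matrix.adjugate_mul_distrib]
    apply mod_eq (r := r) hf
    apply hadj
    rw [hlift1]
    have h1 := (Matrix.map_mul (L := g) (M := lift H) (f := Int.castRingHom (ZMod N)))
    simp only [Int.coe_castRingHom] at h1
    rw [h1, hlift1]
  have hFs : IsSymbol2 (mfull N) F := by
    refine ⟨fun y H => hf.zero_left _ _ _, fun x H => hf.zero_right _ _ _,
      fun x y z hx hy hz H => hf.trans x y z hx hy hz _ _, fun n hn x y H => hf.scale n hn _ _ _ _,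
      fun g hg => ?_⟩
    funext x y H
    rw [key, hf.inv g hg]
  have hFT : T2 (mfull N) p F = a • F := by
    funext x y H
    have h1 := congrFun (congrFun (congrFun (congrFun hT x) y) (H * H0))
      (subst (lift H).adjugate P0)
    simp only [T, Pi.add_apply, Finset.sum_apply, Pi.smul_apply] at h1
    simp only [T2, Pi.add_apply, Finset.sum_apply, Pi.smul_apply, key]
    exact h1
  have hFR : R2 (mfull N) p F = c • F := by
    funext x y H
    have h1 := congrFun (congrFun (congrFun (congrFun hR x) y) (H * H0))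
      (subst (lift H).adjugate P0)
    simp only [R, Pi.smul_apply] at h1
    simp only [R2, Pi.smul_apply, key]
    exact h1
  have h0 := h F a c hFs trivial hFT hFR hac
  have h1 := congrFun (congrFun (congrFun h0 x0) y0) 1
  simp only [hF, Matrix.one_mul, Pi.zero_apply] at h1
  rw [Pi.zero_apply, Pi.zero_apply, Pi.zero_apply, Pi.zero_apply, ← h1]
  apply mod_eq (r := r) hf
  have h2 := hadj 1 (lift 1) P0 (by
    rw [hlift1]
    ext i j
    by_cases hij : i = j
    · subst hij; simp
    · simp [hij])
  rw [← h2, Matrix.adjugate_one, subst_one]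

/-- Weight two symbols as symbols with a polynomial. -/
theorem lemV {A : Type*} [Field A] {N p : ℕ} (h : Regular A 2 N p) :
    Regular2 A (mfull N) p (fun _ => True) := by
  intro F a c hF _ hT hR hac
  set f : Cochain N A := fun x y H P => ((constantCoeff P : ℤ) : A) * F x y H with hf
  have key : ∀ (g : Matrix (Fin 2) (Fin 2) ℤ) x y H P,
      act g f x y H P = ((constantCoeff P : ℤ) : A) * act2 (mfull N) g F x y H := by
    intro g x y H P
    simp only [act, hf, act2, mfull, constantCoeff_subst]
  have h1 : IsSymbol 2 f := by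
    refine ⟨fun y H P => ?_, fun x H P => ?_, fun x y H P Q => ?_, fun x y H P i hi hi2 => ?_,
      fun x y z hx hy hz H P => ?_, fun n hn x y H P => ?_, fun g hg => ?_⟩
    · simp [hf, hF.zero_left]
    · simp [hf, hF.zero_right]
    · simp only [hf, map_add, Int.cast_add, add_mul]
    · have h2 : constantCoeff P = 0 := by
        rw [constantCoeff_eq]
        apply hi.coeff_eq_zero
        simp only [map_zero]
        omega
      simp only [hf, h2, Int.cast_zero, zero_mul]
    · simp only [hf, ← mul_add, hF.trans x y z hx hy hz]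
    · simp only [hf, hF.scale n hn]
    · funext x y H P
      rw [key, hF.inv g hg]
  have h2 : T p f = a • f := by
    funext x y H P
    have h3 := congrFun (congrFun (congrFun hT x) y) H
    simp only [T2, Pi.add_apply, Finset.sum_apply, Pi.smul_apply, smul_eq_mul] at h3
    simp only [T, Pi.add_apply, Finset.sum_apply, Pi.smul_apply, key, smul_eq_mul,
      ← Finset.mul_sum, ← mul_add]
    rw [h3, hf]
    ring
  have h3 : R p f = c • f := by
    funext x y H P
    have h3 := congrFun (congrFun (congrFun hR x) y) H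
    simp only [R2, Pi.smul_apply, smul_eq_mul] at h3
    simp only [R, Pi.smul_apply, key, smul_eq_mul]
    rw [h3, hf]
    ring
  have h4 := h f a c h1 h2 h3 hac
  funext x y H
  have h5 := congrFun (congrFun (congrFun (congrFun h4 x) y) H) 1
  simpa [hf] using h5

end Pool.Agent.Helper44.MT
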