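import Pool.Agent.Helper44.MT.Genus

/-!
# The eigenvalue equations have no solution
-/

set_option autoImplicit false

namespace Pool.Agent.Helper44.MT

open Matrix

variable {K : Type*} [Field K] {r : ℕ} [Fact r.Prime] [CharP K r]

theorem vanish (hr : r = 3 ∨ r = 5 ∨ r = 7) {F : ZMod r → ZMod r → K} (hF : Rel F) {p m : ℕ}
    (hm : (p : ZMod r) ^ m = -1) {a c : K} (hac : a ^ 2 = 4 * p * c)
    (h0 : F 0 0 = 0)
    (T1 : ∀ d e : ZMod r, d ≠ 0 → e ≠ 0 →
      F 1 e + p * F 1 (p * e) - (F 1 d + p * F 1 (p * d)) = a * (F 1 e - F 1 d))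
    (T2 : ∀ t : ZMod r, t ≠ 0 → (F (p * t) 0 + F 1 (p * t)) + p * (F t 0 + F 1 t) -
      (F 1 t + p * F 1 (p * t)) = a * F t 0)
    (P : ∀ d e : ZMod r, F (p * d) (p * e) = c * F d e) (d e : ZMod r) : F d e = 0 := by
  have h2 : (2 : K) ≠ 0 := by
    have h3 : ((2 : ℕ) : K) ≠ 0 := by
      rw [Ne, CharP.cast_eq_zero_iff K r]
      rcases hr with rfl | rfl | rfl <;> norm_num
    simpa using h3
  have h1r : (1 : ZMod r) ≠ 0 := one_ne_zero
  have hp : (p : ZMod r) ≠ 0 := by
    intro hp
    rcases Nat.eq_zero_or_pos m with rfl | hm0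
    · rw [pow_zero] at hm
      have h3 : (2 : ZMod r) = 0 := by linear_combination hm
      have h4 : ((2 : ℕ) : ZMod r) = 0 := by simpa using h3
      rw [ZMod.natCast_eq_zero_iff] at h4
      rcases hr with rfl | rfl | rfl <;> norm_num at h4
    · rw [hp, zero_pow hm0.ne'] at hm
      exact h1r (by linear_combination hm)
  have hmK : (p : K) ^ m = -1 := by
    have h3 := congrArg (ZMod.castHom (dvd_refl r) K) hm
    simpa using h3
  have hpn : ∀ n : ℕ, (p : ZMod r) ^ n ≠ 0 := fun n => pow_ne_zero _ hp
  have hdiag : F 1 1 = 0 := hF.diag 1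
  have hP : ∀ d : ZMod r, d ≠ 0 → F 1 (p * d) = c * F 1 d + F 1 p := by
    intro d hd
    have h3 := P 1 d
    rw [mul_one, hF.star hr _ _ hp (mul_ne_zero hp hd)] at h3
    linear_combination h3
  -- the first function
  have hA : ∀ d : ZMod r, d ≠ 0 → F 1 d = 0 := by
    intro d hd
    by_contra hne
    have h3 := T1 1 d h1r hd
    rw [mul_one, hP d hd, hdiag] at h3
    have h4 : (1 + p * c - a) * F 1 d = 0 := by linear_combination h3
    have h5 : a = 1 + p * c := by
      rcases mul_eq_zero.mp h4 with h | h
      · linear_combination -h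
      · exact absurd h hne
    have h6 : (1 - p * c) ^ 2 = 0 := by
      rw [h5] at hac
      linear_combination hac
    have h7 : (p : K) * c = 1 := by
      have := pow_eq_zero_iff (two_ne_zero) |>.mp h6
      linear_combination -this
    have h8 : ∀ n : ℕ, F 1 (p ^ n * d) = c ^ n * F 1 d + F 1 (p ^ n) := by
      intro n
      induction n with
      | zero => simp [hdiag]
      | succ n ih =>
        have h9 := hP (p ^ n * d) (mul_ne_zero (hpn n) hd)
        have h10 := hP (p ^ n) (hpn n)
        have h11 : (p : ZMod r) ^ (n + 1) * d = p * (p ^ n * d) := by ring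
        have h12 : (p : ZMod r) ^ (n + 1) = p * p ^ n := by ring
        rw [h11, h12, h9, h10, ih]
        ring
    have h9 := h8 m
    rw [hm, neg_one_mul, hF.even hr d hd, hF.anti'] at h9
    have h10 : c ^ m = -1 := by
      have h11 : (p : K) ^ m * c ^ m = 1 := by rw [← mul_pow, h7, one_pow]
      rw [hmK] at h11
      linear_combination -h11
    rw [h10] at h9
    have h11 : 2 * F 1 d = 0 := by linear_combination h9
    rcases mul_eq_zero.mp h11 with h | h
    · exact h2 h
    · exact hne h
  -- the second function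
  have hB : ∀ t : ZMod r, t ≠ 0 → F t 0 = 0 := by
    intro t ht
    by_contra hne
    have h3 := T2 t ht
    have h4 := P t 0
    rw [mul_zero] at h4
    rw [hA t ht, hA _ (mul_ne_zero hp ht), h4] at h3
    have h5 : (c + p - a) * F t 0 = 0 := by linear_combination h3
    have h6 : a = c + p := by
      rcases mul_eq_zero.mp h5 with h | h
      · linear_combination -h
      · exact absurd h hne
    have h7 : (c - p) ^ 2 = 0 := by
      rw [h6] at hac
      linear_combination hac
    have h8 : c = p := by
      have := pow_eq_zero_iff (two_ne_zero) |>.mp h7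
      linear_combination this
    have h9 : ∀ n : ℕ, F (p ^ n * t) 0 = c ^ n * F t 0 := by
      intro n
      induction n with
      | zero => simp
      | succ n ih =>
        have h10 := P (p ^ n * t) 0
        rw [mul_zero] at h10
        have h11 : (p : ZMod r) ^ (n + 1) * t = p * (p ^ n * t) := by ring
        rw [h11, h10, ih]
        ring
    have h10 := h9 m
    have h11 := hF.neg t 0
    rw [neg_zero] at h11
    rw [hm, neg_one_mul, h11, h8, hmK] at h10
    have h12 : 2 * F t 0 = 0 := by linear_combination h10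
    rcases mul_eq_zero.mp h12 with h | h
    · exact h2 h
    · exact hne h
  by_cases hd : d = 0
  · by_cases he : e = 0
    · rw [hd, he, h0]
    · have h3 := hF.s e 0
      rw [neg_zero, hB e he, neg_zero] at h3
      rw [hd, h3]
  · by_cases he : e = 0
    · rw [he, hB d hd]
    · rw [hF.star hr d e hd he, hA e he, hA d hd, sub_zero]

end Pool.Agent.Helper44.MT
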