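import Pool.Agent.Helper44.MT.Defs

/-!
# From full level `r` to vectors
-/

set_option autoImplicit false

namespace Pool.Agent.Helper44.MT

open Matrix

section eig

variable {A V : Type*} [Field A] [AddCommGroup V] [Module A V]

/-- An eigenvector in a stable subspace. -/
theorem exists_eig (S : Module.End A V) (W : Submodule A V) (hW : ∀ v ∈ W, S v ∈ W)
    (L : List A) : ∀ v ∈ W, v ≠ 0 → (L.map fun x => S - algebraMap A (Module.End A V) x).prod v = 0 →
      ∃ w ∈ W, w ≠ 0 ∧ ∃ x ∈ L, S w = x • w := by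
  induction L using List.reverseRecOn with
  | nil =>
    intro v _ hv h
    exact absurd (by simpa using h) hv
  | append_singleton L x ih =>
    intro v hvW hv h
    by_cases h0 : S v - x • v = 0
    · exact ⟨v, hvW, hv, x, by simp, sub_eq_zero.mp h0⟩
    · obtain ⟨w, h1, h2, y, h3, h4⟩ := ih (S v - x • v) (W.sub_mem (hW v hvW) (W.smul_mem x hvW)) h0
        (by simpa [List.map_append, List.prod_append, Module.algebraMap_end_apply] using h)
      exact ⟨w, h1, h2, y, by simp [h3], h4⟩

/-- Fixed vectors of operators of order `r` in characteristic `r`. -/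
theorem exists_fix {r : ℕ} [Fact r.Prime] [CharP A r] (S : Module.End A V) (hS : S ^ r = 1)
    (W : Submodule A V) (hW : ∀ v ∈ W, S v ∈ W) (v : V) (hv : v ∈ W) (hv0 : v ≠ 0) :
    ∃ w ∈ W, w ≠ 0 ∧ S w = w := by
  have : Nontrivial V := ⟨⟨v, 0, hv0⟩⟩
  have : CharP (Module.End A V) r := charP_of_injective_algebraMap
    (algebraMap A (Module.End A V)).injective r
  have h1 : (S - 1) ^ r = 0 := by
    rw [sub_pow_char_of_commute r (Commute.one_right S), hS, one_pow, sub_self]
  obtain ⟨w, h2, h3, x, h4, h5⟩ := exists_eig S W hW (List.replicate r 1) v hv hv0 (by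
    rw [List.map_replicate, List.prod_replicate, map_one, h1, LinearMap.zero_apply])
  refine ⟨w, h2, h3, ?_⟩
  rw [List.eq_of_mem_replicate h4, one_smul] at h5
  exact h5

/-- Eigenvectors of operators of finite order. -/
theorem exists_eigen [IsAlgClosed A] {n : ℕ} (hn : n ≠ 0) (S : Module.End A V) (hS : S ^ n = 1)
    (W : Submodule A V) (hW : ∀ v ∈ W, S v ∈ W) (v : V) (hv : v ∈ W) (hv0 : v ≠ 0) :
    ∃ w ∈ W, w ≠ 0 ∧ ∃ x : A, S w = x • w := by
  classical
  set P : Polynomial A := Polynomial.X ^ n - 1 with hP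
  have hmon : P.Monic := Polynomial.monic_X_pow_sub_C 1 hn
  have hsplit := (IsAlgClosed.splits P)
  have h1 : P = (P.roots.map fun a => Polynomial.X - Polynomial.C a).prod := by
    have := hsplit.eq_prod_roots
    rw [hmon.leadingCoeff, map_one, one_mul] at this
    exact this
  have h2 : Polynomial.aeval S P = 0 := by
    rw [hP]
    simp [hS]
  have h3 : P = (P.roots.toList.map fun a => Polynomial.X - Polynomial.C a).prod := by
    conv_lhs => rw [h1, ← Multiset.coe_toList P.roots]
    rw [Multiset.map_coe, Multiset.prod_coe]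
  obtain ⟨w, h4, h5, x, _, h6⟩ := exists_eig S W hW P.roots.toList v hv hv0 (by
    rw [h3, map_list_prod, List.map_map] at h2
    have h7 : ((Polynomial.aeval S : Polynomial A →ₐ[A] Module.End A V) ∘
        fun a => Polynomial.X - Polynomial.C a) =
        fun x => S - algebraMap A (Module.End A V) x := by
      funext a
      simp
    rw [h7] at h2
    rw [h2, LinearMap.zero_apply])
  exact ⟨w, h4, h5, x, h6⟩

end eig

section full

variable {A : Type*} [Field A] {N : ℕ}

/-- The symbols of weight two and full level with given eigenvalues, supported on the invertible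
matrices. -/
def eigenSpace (N : ℕ) (p : ℕ) (a c : A) :
    Submodule A (Cochain2 (Matrix (Fin 2) (Fin 2) (ZMod N)) A) where
  carrier := {f | IsSymbol2 (mfull N) f ∧ T2 (mfull N) p f = a • f ∧ R2 (mfull N) p f = c • f ∧
    ∀ x y H, ¬ IsUnit H.det → f x y H = 0}
  zero_mem' := by
    refine ⟨⟨fun _ _ => rfl, fun _ _ => rfl, fun _ _ _ _ _ _ _ => by simp, fun _ _ _ _ _ => rfl,
      fun _ _ => rfl⟩, ?_, ?_, fun _ _ _ _ => rfl⟩
    · funext x y H
      simp [T2, act2]
    · funext x y H
      simp [R2, act2]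
  add_mem' := by
    rintro f g ⟨h1, h2, h3, h4⟩ ⟨h1', h2', h3', h4'⟩
    have hact : ∀ δ, act2 (mfull N) δ (f + g) = act2 (mfull N) δ f + act2 (mfull N) δ g :=
      fun δ => rfl
    refine ⟨⟨fun y h => ?_, fun x h => ?_, fun x y z hx hy hz h => ?_, fun n hn x y h => ?_,
      fun δ hδ => ?_⟩, ?_, ?_, fun x y H hH => ?_⟩
    · simp [h1.zero_left, h1'.zero_left]
    · simp [h1.zero_right, h1'.zero_right]
    · simp only [Pi.add_apply, ← h1.trans x y z hx hy hz, ← h1'.trans x y z hx hy hz]
      ring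
    · simp only [Pi.add_apply, h1.scale n hn, h1'.scale n hn]
    · rw [hact, h1.inv δ hδ, h1'.inv δ hδ]
    · simp only [T2, hact] at h2 h2' ⊢
      rw [Finset.sum_add_distrib, smul_add, ← h2, ← h2']
      abel
    · simp only [R2, hact] at h3 h3' ⊢
      rw [smul_add, ← h3, ← h3']
    · simp [h4 x y H hH, h4' x y H hH]
  smul_mem' := by
    rintro b f ⟨h1, h2, h3, h4⟩
    have hact : ∀ δ, act2 (mfull N) δ (b • f) = b • act2 (mfull N) δ f := fun δ => rfl
    refine ⟨⟨fun y h => ?_, fun x h => ?_, fun x y z hx hy hz h => ?_, fun n hn x y h => ?_,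
      fun δ hδ => ?_⟩, ?_, ?_, fun x y H hH => ?_⟩
    · simp [h1.zero_left]
    · simp [h1.zero_right]
    · simp only [Pi.smul_apply, ← h1.trans x y z hx hy hz, smul_add]
    · simp only [Pi.smul_apply, h1.scale n hn]
    · rw [hact, h1.inv δ hδ]
    · simp only [T2, hact] at h2 ⊢
      rw [← Finset.smul_sum, ← smul_add, h2, smul_comm]
    · simp only [R2, hact] at h3 ⊢
      rw [h3, smul_comm]
    · simp [h4 x y H hH]

/-- Right translation. -/
def rtrans (u : Matrix (Fin 2) (Fin 2) (ZMod N)) :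
    Module.End A (Cochain2 (Matrix (Fin 2) (Fin 2) (ZMod N)) A) where
  toFun f := fun x y H => f x y (H * u)
  map_add' _ _ := rfl
  map_smul' _ _ := rfl

theorem rtrans_apply (u : Matrix (Fin 2) (Fin 2) (ZMod N))
    (f : Cochain2 (Matrix (Fin 2) (Fin 2) (ZMod N)) A) (x y : Fin 2 → ℤ)
    (H : Matrix (Fin 2) (Fin 2) (ZMod N)) : rtrans (A := A) u f x y H = f x y (H * u) := rfl

theorem rtrans_pow (u : Matrix (Fin 2) (Fin 2) (ZMod N)) (n : ℕ) :
    (rtrans (A := A) u) ^ n = rtrans (u ^ n) := by
  induction n with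
  | zero =>
    ext f x y H
    simp [rtrans_apply]
  | succ n ih =>
    ext f x y H
    rw [pow_succ, Module.End.mul_apply, ih, rtrans_apply, rtrans_apply, rtrans_apply, pow_succ,
      Matrix.mul_assoc]

/-- Right translations preserve the eigenspaces, apart from the support. -/
theorem rtrans_aux {p : ℕ} {a c : A} {f : Cochain2 (Matrix (Fin 2) (Fin 2) (ZMod N)) A}
    (h1 : IsSymbol2 (mfull N) f) (h2 : T2 (mfull N) p f = a • f) (h3 : R2 (mfull N) p f = c • f)
    (u : Matrix (Fin 2) (Fin 2) (ZMod N)) :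
    IsSymbol2 (mfull N) (rtrans u f) ∧ T2 (mfull N) p (rtrans u f) = a • (rtrans (A := A) u f) ∧
      R2 (mfull N) p (rtrans u f) = c • (rtrans (A := A) u f) := by
  have hact : ∀ δ x y H, act2 (mfull N) δ (rtrans (A := A) u f) x y H =
      act2 (mfull N) δ f x y (H * u) := by
    intro δ x y H
    simp only [act2, rtrans_apply, mfull, Matrix.mul_assoc]
  refine ⟨⟨fun y h => ?_, fun x h => ?_, fun x y z hx hy hz h => ?_, fun n hn x y h => ?_,
      fun δ hδ => ?_⟩, ?_, ?_⟩
  · simp [rtrans_apply, h1.zero_left]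
  · simp [rtrans_apply, h1.zero_right]
  · simp only [rtrans_apply, h1.trans x y z hx hy hz]
  · simp only [rtrans_apply, h1.scale n hn]
  · funext x y H
    rw [hact, h1.inv δ hδ, rtrans_apply]
  · funext x y H
    have h4 := congrFun (congrFun (congrFun h2 x) y) (H * u)
    simp only [T2, Pi.add_apply, Finset.sum_apply, Pi.smul_apply] at h4
    simp only [T2, Pi.add_apply, Finset.sum_apply, Pi.smul_apply, hact, rtrans_apply]
    exact h4
  · funext x y H
    have h4 := congrFun (congrFun (congrFun h3 x) y) (H * u)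
    simp only [R2, Pi.smul_apply] at h4
    simp only [R2, Pi.smul_apply, hact, rtrans_apply]
    exact h4

/-- Right translations by invertible matrices preserve the eigenspaces. -/
theorem rtrans_mem {p : ℕ} {a c : A} {u : Matrix (Fin 2) (Fin 2) (ZMod N)}
    (hu : IsUnit u.det) {f : Cochain2 (Matrix (Fin 2) (Fin 2) (ZMod N)) A}
    (hf : f ∈ eigenSpace N p a c) : rtrans u f ∈ eigenSpace N p a c := by
  obtain ⟨h1, h2, h3, h4⟩ := hf
  obtain ⟨h5, h6, h7⟩ := rtrans_aux h1 h2 h3 u
  refine ⟨h5, h6, h7, fun x y H hH => ?_⟩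
  rw [rtrans_apply]
  apply h4
  rwa [Matrix.det_mul, IsUnit.mul_iff, not_and_or, or_iff_left (not_not.mpr hu)]

/-- A nonzero symbol can be moved to the identity and cut off. -/
theorem exists_supported {p : ℕ} (hp : p.Coprime N) {a c : A}
    {f : Cochain2 (Matrix (Fin 2) (Fin 2) (ZMod N)) A}
    (h1 : IsSymbol2 (mfull N) f) (h2 : T2 (mfull N) p f = a • f) (h3 : R2 (mfull N) p f = c • f)
    (h0 : f ≠ 0) : ∃ g ∈ eigenSpace N p a c, g ≠ 0 := by
  classical
  obtain ⟨x0, y0, H0, hne⟩ : ∃ x y H, f x y H ≠ 0 := by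
    by_contra h
    push Not at h
    exact h0 (by funext x y H; exact h x y H)
  obtain ⟨h1, h2, h3⟩ := rtrans_aux h1 h2 h3 H0
  set f1 : Cochain2 (Matrix (Fin 2) (Fin 2) (ZMod N)) A := rtrans H0 f with hf1
  have hne1 : f1 x0 y0 1 ≠ 0 := by
    rw [hf1, rtrans_apply, Matrix.one_mul]
    exact hne
  set g : Cochain2 (Matrix (Fin 2) (Fin 2) (ZMod N)) A :=
    fun x y H => if IsUnit H.det then f1 x y H else 0 with hg
  have hact : ∀ δ : Matrix (Fin 2) (Fin 2) ℤ, IsUnit ((δ.det : ℤ) : ZMod N) → ∀ x y H,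
      act2 (mfull N) δ g x y H = if IsUnit H.det then act2 (mfull N) δ f1 x y H else 0 := by
    intro δ hδ x y H
    have h5 : (δ.map (Int.cast : ℤ → ZMod N)).det = ((δ.det : ℤ) : ZMod N) :=
      (RingHom.map_det (Int.castRingHom (ZMod N)) δ).symm
    simp only [act2, hg, mfull, Matrix.det_mul, h5, IsUnit.mul_iff, hδ, true_and]
  have hpu : IsUnit ((p : ℕ) : ZMod N) := (ZMod.isUnit_iff_coprime p N).mpr hp
  refine ⟨g, ⟨⟨fun y h => ?_, fun x h => ?_, fun x y z hx hy hz h => ?_, fun n hn x y h => ?_,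
      fun δ hδ => ?_⟩, ?_, ?_, fun x y H hH => ?_⟩, ?_⟩
  · simp [hg, h1.zero_left]
  · simp [hg, h1.zero_right]
  · simp only [hg]
    split_ifs
    · exact h1.trans x y z hx hy hz h
    · simp
  · simp only [hg, h1.scale n hn]
  · funext x y H
    rw [hact δ (by rw [hδ]; simp), h1.inv δ hδ]
  · funext x y H
    have h4 := congrFun (congrFun (congrFun h2 x) y) H
    simp only [T2, Pi.add_apply, Finset.sum_apply, Pi.smul_apply] at h4
    simp only [T2, Pi.add_apply, Finset.sum_apply, Pi.smul_apply]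
    rw [hact _ (by rw [Matrix.det_fin_two_of]; simpa using hpu), Finset.sum_congr rfl (fun i _ =>
      hact _ (by rw [Matrix.det_fin_two_of]; simpa using hpu) x y H)]
    simp only [hg]
    split_ifs
    · exact h4
    · simp
  · funext x y H
    have h4 := congrFun (congrFun (congrFun h3 x) y) H
    simp only [R2, Pi.smul_apply] at h4
    simp only [R2, Pi.smul_apply]
    rw [hact _ (by rw [Matrix.det_fin_two_of]; simpa using hpu)]
    simp only [hg]
    split_ifs
    · exact h4
    · simp
  · simp only [hg, hH, if_false]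
  · intro h
    have h5 := congrFun (congrFun (congrFun h x0) y0) 1
    simp only [hg, Matrix.det_one, isUnit_one, if_true] at h5
    exact hne1 h5

end full

section column

variable {r : ℕ} [Fact r.Prime]

/-- A matrix of determinant one with first column `h`. -/
def col (h : Fin 2 → ZMod r) : Matrix (Fin 2) (Fin 2) (ZMod r) :=
  if h 0 = 0 then !![0, -(h 1)⁻¹; h 1, 0] else !![h 0, 0; h 1, (h 0)⁻¹]

theorem det_col {h : Fin 2 → ZMod r} (hh : h ≠ 0) : (col h).det = 1 := by
  unfold col
  split_ifs with h0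
  · have h1 : h 1 ≠ 0 := by
      intro h1
      apply hh
      ext i; fin_cases i
      · exact h0
      · exact h1
    rw [Matrix.det_fin_two_of]
    field_simp
    ring
  · rw [Matrix.det_fin_two_of]
    field_simp
    ring

theorem col_zero_zero (h : Fin 2 → ZMod r) : (col h) 0 0 = h 0 := by
  unfold col
  split_ifs with h0
  · simp [h0]
  · simp

theorem col_one_zero (h : Fin 2 → ZMod r) : (col h) 1 0 = h 1 := by
  unfold col
  split_ifs with h0 <;> simp

/-- Two matrices of determinant one with the same first column. -/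
theorem eq_mul_unip {H H' : Matrix (Fin 2) (Fin 2) (ZMod r)} (h1 : H.det = 1) (h2 : H'.det = 1)
    (h3 : H 0 0 = H' 0 0) (h4 : H 1 0 = H' 1 0) : ∃ n : ℕ, H' = H * !![1, 1; 0, 1] ^ n := by
  have hpow : ∀ n : ℕ, (!![1, 1; 0, 1] : Matrix (Fin 2) (Fin 2) (ZMod r)) ^ n =
      !![1, (n : ZMod r); 0, 1] := by
    intro n
    induction n with
    | zero => simp [Matrix.one_fin_two]
    | succ n ih =>
      rw [pow_succ, ih, Matrix.mul_fin_two]
      ext i j
      fin_cases i <;> fin_cases j <;> simp [add_comm]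
  rw [Matrix.det_fin_two] at h1 h2
  set b : ZMod r := H 1 1 * H' 0 1 - H 0 1 * H' 1 1 with hb
  refine ⟨b.val, ?_⟩
  rw [hpow, ZMod.natCast_zmod_val]
  ext i j
  fin_cases i <;> fin_cases j
  · simp [Matrix.mul_apply, Fin.sum_univ_two, h3]
  · simp only [Matrix.mul_apply, Fin.sum_univ_two, Fin.zero_eta, Fin.mk_one, Fin.isValue,
      Matrix.of_apply, Matrix.cons_val', Matrix.cons_val_one, Matrix.cons_val_fin_one,
      Matrix.cons_val_zero, mul_one]
    rw [← h3, ← h4] at h2
    rw [hb]
    linear_combination (-H' 0 1) * h1 + H 0 1 * h2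
  · simp [Matrix.mul_apply, Fin.sum_univ_two, h4]
  · simp only [Matrix.mul_apply, Fin.sum_univ_two, Fin.mk_one, Fin.isValue,
      Matrix.of_apply, Matrix.cons_val', Matrix.cons_val_one, Matrix.cons_val_fin_one,
      Matrix.cons_val_zero, mul_one]
    rw [← h3, ← h4] at h2
    rw [hb]
    linear_combination (-H' 1 1) * h1 + H 1 1 * h2

end column

end Pool.Agent.Helper44.MT
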