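import Mathlib

/-!
# Modular symbols of weight `k` and full level `N`, Hecke operators

Cusps are represented by nonzero integer vectors, `x = (a, c)` standing for `a / c`.
-/

set_option autoImplicit false

namespace Pool.Agent.Helper44.MT

open MvPolynomial Matrix

/-- `P (X, Y)` becomes `P (g (X, Y))`. -/
noncomputable def subst {R : Type*} [CommRing R] (g : Matrix (Fin 2) (Fin 2) R)
    (P : MvPolynomial (Fin 2) R) : MvPolynomial (Fin 2) R :=
  aeval (fun i => ∑ j, C (g i j) * X j) P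

/-- Functions of two cusps, a matrix modulo `N` and a polynomial. -/
abbrev Cochain (N : ℕ) (A : Type*) :=
  (Fin 2 → ℤ) → (Fin 2 → ℤ) → Matrix (Fin 2) (Fin 2) (ZMod N) → MvPolynomial (Fin 2) ℤ → A

/-- The action of the integral matrix `g`. -/
noncomputable def act {N : ℕ} {A : Type*} (g : Matrix (Fin 2) (Fin 2) ℤ) (f : Cochain N A) :
    Cochain N A :=
  fun x y H P => f (g *ᵥ x) (g *ᵥ y) (g.map (Int.cast : ℤ → ZMod N) * H) (subst g.adjugate P)

/-- Modular symbols of weight `k` and level `N`. -/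
structure IsSymbol {N : ℕ} {A : Type*} [AddCommGroup A] (k : ℕ) (f : Cochain N A) : Prop where
  zero_left : ∀ y H P, f 0 y H P = 0
  zero_right : ∀ x H P, f x 0 H P = 0
  poly : ∀ x y H P Q, f x y H (P + Q) = f x y H P + f x y H Q
  weight : ∀ x y H P i, P.IsHomogeneous i → i + 2 ≠ k → f x y H P = 0
  trans : ∀ x y z, x ≠ 0 → y ≠ 0 → z ≠ 0 → ∀ H P, f x y H P + f y z H P = f x z H P
  scale : ∀ n : ℤ, n ≠ 0 → ∀ x y H P, f (n • x) y H P = f x y H P
  inv : ∀ g : Matrix (Fin 2) (Fin 2) ℤ, g.det = 1 → act g f = f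

/-- The Hecke operator `T_p`. -/
noncomputable def T {N : ℕ} {A : Type*} [AddCommGroup A] (p : ℕ) (f : Cochain N A) :
    Cochain N A :=
  act !![(p : ℤ), 0; 0, 1] f + ∑ i ∈ Finset.range p, act !![1, (i : ℤ); 0, (p : ℤ)] f

/-- The Hecke operator of the scalar matrix `p`. -/
noncomputable def R {N : ℕ} {A : Type*} (p : ℕ) (f : Cochain N A) : Cochain N A :=
  act !![(p : ℤ), 0; 0, (p : ℤ)] f

/-- The discriminant of `X ^ 2 - T_p X + p R_p` has no kernel on the symbols of weight `k`. -/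
def Regular (A : Type*) [Field A] (k N p : ℕ) : Prop :=
  ∀ (f : Cochain N A) (a c : A), IsSymbol k f → T p f = a • f → R p f = c • f →
    a ^ 2 = 4 * p * c → f = 0

/-! ### Weight two -/

/-- Functions of two cusps and an element of `H`. -/
abbrev Cochain2 (H : Type*) (A : Type*) := (Fin 2 → ℤ) → (Fin 2 → ℤ) → H → A

/-- Action on functions of two cusps and an element of a set `H` on which the integral matrices act
through `m`. -/
def act2 {H A : Type*} (m : Matrix (Fin 2) (Fin 2) ℤ → H → H) (g : Matrix (Fin 2) (Fin 2) ℤ)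
    (f : Cochain2 H A) : Cochain2 H A :=
  fun x y h => f (g *ᵥ x) (g *ᵥ y) (m g h)

/-- Modular symbols of weight two. -/
structure IsSymbol2 {H A : Type*} [AddCommGroup A] (m : Matrix (Fin 2) (Fin 2) ℤ → H → H)
    (f : Cochain2 H A) : Prop where
  zero_left : ∀ y h, f 0 y h = 0
  zero_right : ∀ x h, f x 0 h = 0
  trans : ∀ x y z, x ≠ 0 → y ≠ 0 → z ≠ 0 → ∀ h, f x y h + f y z h = f x z h
  scale : ∀ n : ℤ, n ≠ 0 → ∀ x y h, f (n • x) y h = f x y h
  inv : ∀ g : Matrix (Fin 2) (Fin 2) ℤ, g.det = 1 → act2 m g f = f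

/-- The Hecke operator `T_p` in weight two. -/
def T2 {H A : Type*} [AddCommGroup A] (m : Matrix (Fin 2) (Fin 2) ℤ → H → H) (p : ℕ)
    (f : Cochain2 H A) : Cochain2 H A :=
  act2 m !![(p : ℤ), 0; 0, 1] f + ∑ i ∈ Finset.range p, act2 m !![1, (i : ℤ); 0, (p : ℤ)] f

/-- The Hecke operator of the scalar matrix `p` in weight two. -/
def R2 {H A : Type*} (m : Matrix (Fin 2) (Fin 2) ℤ → H → H) (p : ℕ)
    (f : Cochain2 H A) : Cochain2 H A :=
  act2 m !![(p : ℤ), 0; 0, (p : ℤ)] f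

/-- Regularity in weight two on the symbols with property `Q`. -/
def Regular2 (A : Type*) [Field A] {H : Type*} (m : Matrix (Fin 2) (Fin 2) ℤ → H → H) (p : ℕ)
    (Q : Cochain2 H A → Prop) : Prop :=
  ∀ (f : Cochain2 H A) (a c : A), IsSymbol2 m f → Q f → T2 m p f = a • f → R2 m p f = c • f →
    a ^ 2 = 4 * p * c → f = 0

/-- Full level structures. -/
def mfull (N : ℕ) (g : Matrix (Fin 2) (Fin 2) ℤ) (H : Matrix (Fin 2) (Fin 2) (ZMod N)) :
    Matrix (Fin 2) (Fin 2) (ZMod N) :=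
  g.map (Int.cast : ℤ → ZMod N) * H

/-- Vector level structures. -/
def mvec (N : ℕ) (g : Matrix (Fin 2) (Fin 2) ℤ) (h : Fin 2 → ZMod N) : Fin 2 → ZMod N :=
  g.map (Int.cast : ℤ → ZMod N) *ᵥ h

end Pool.Agent.Helper44.MT
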