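import Mathlib

/-!
# Generation of the degree zero divisors on the cusps
-/

set_option autoImplicit false

namespace Pool.Agent.Helper44.MT

/-- An equivalence relation on the coprime pairs which contains all pairs of determinant one and
`(x, -x)` is everything. -/
theorem gen (rel : (Fin 2 → ℤ) → (Fin 2 → ℤ) → Prop)
    (hsymm : ∀ x y, rel x y → rel y x)
    (htrans : ∀ x y z, IsCoprime (x 0) (x 1) → IsCoprime (y 0) (y 1) → IsCoprime (z 0) (z 1) →
      rel x y → rel y z → rel x z)
    (hneg : ∀ x, IsCoprime (x 0) (x 1) → rel x (-x))
    (hdet : ∀ x y, x 0 * y 1 - x 1 * y 0 = 1 → rel x y)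
    (x y : Fin 2 → ℤ) (hx : IsCoprime (x 0) (x 1)) (hy : IsCoprime (y 0) (y 1)) : rel x y := by
  have he : IsCoprime ((![1, 0] : Fin 2 → ℤ) 0) ((![1, 0] : Fin 2 → ℤ) 1) := by
    simpa using isCoprime_one_left
  have hrefl : ∀ x, IsCoprime (x 0) (x 1) → rel x x := fun x hx =>
    htrans x (-x) x hx (by simpa using hx.neg_neg) hx (hneg x hx) (hsymm _ _ (hneg x hx))
  have key : ∀ (n : ℕ) (x : Fin 2 → ℤ), IsCoprime (x 0) (x 1) → (x 1).natAbs = n →
      rel x ![1, 0] := by
    intro n
    induction n using Nat.strong_induction_on with
    | _ n ih =>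
      intro x hx hn
      by_cases hc : x 1 = 0
      · rw [hc, isCoprime_zero_right, Int.isUnit_iff] at hx
        rcases hx with h | h
        · have : x = ![1, 0] := by
            ext i; fin_cases i
            · exact h
            · exact hc
          rw [this]
          exact hrefl _ he
        · have : x = -![1, 0] := by
            ext i; fin_cases i
            · simpa using h
            · simpa using hc
          rw [this]
          exact hsymm _ _ (hneg _ he)
      · obtain ⟨u, v, huv⟩ := hx
        set q := u / x 1 with hq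
        have hdiv : x 1 * q + u % x 1 = u := Int.mul_ediv_add_emod u (x 1)
        set y : Fin 2 → ℤ := ![-v - x 0 * q, u % x 1] with hy
        have hy0 : y 0 = -v - x 0 * q := rfl
        have hy1 : y 1 = u % x 1 := rfl
        have h1 : x 0 * y 1 - x 1 * y 0 = 1 := by
          rw [hy0, hy1]
          linear_combination x 0 * hdiv + huv
        have h2 : IsCoprime (y 0) (y 1) := ⟨-x 1, x 0, by linear_combination h1⟩
        have h3 : (y 1).natAbs < n := by
          rw [← hn, hy1]
          have h4 := Int.emod_nonneg u hc
          have h5 := Int.emod_lt_abs u hc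
          generalize u % x 1 = w at h4 h5 ⊢
          generalize x 1 = z at h4 h5 ⊢
          rw [Int.abs_eq_natAbs] at h5
          omega
        exact htrans x y _ ⟨u, v, huv⟩ h2 he (hdet x y h1) (ih _ h3 y h2 rfl)
  exact htrans x _ y hx he hy (key _ x hx rfl) (hsymm _ _ (key _ y hy rfl))

end Pool.Agent.Helper44.MT
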