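import Pool.Agent.Helper44.MT.Defs
import Pool.Agent.Helper44.MT.Gen

/-!
# Symbols of weight two and level `Γ₁(r)` modulo `r = 3, 5, 7`
-/

set_option autoImplicit false

namespace Pool.Agent.Helper44.MT

open Matrix

/-! ### The relations of Manin, solved for `r = 3, 5, 7` -/

section solve

variable {K : Type*} [Field K] {r : ℕ}

/-- The relations of Manin. -/
structure Rel (F : ZMod r → ZMod r → K) : Prop where
  s : ∀ c d, F (-d) c = -F c d
  u : ∀ c d, F c d + F (-d) (c - d) + F (d - c) (-c) = 0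

variable {F : ZMod r → ZMod r → K}

theorem Rel.neg (h : Rel F) (c d : ZMod r) : F (-c) (-d) = F c d := by
  have h1 := h.s (-d) c
  rw [h1, h.s c d, neg_neg]

theorem Rel.diag (h : Rel F) (c : ZMod r) : F c c = 0 := by
  have h1 := h.u (-c) 0
  have h2 := h.s (-c) 0
  have h3 : F (0 - -c) (- -c) = F c c := by simp
  rw [h3, sub_zero, h2] at h1
  linear_combination h1

theorem Rel.anti (h : Rel F) (c : ZMod r) : F (-c) c = 0 := by
  rw [h.s c c, h.diag, neg_zero]

theorem Rel.anti' (h : Rel F) (c : ZMod r) : F c (-c) = 0 := by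
  rw [← h.neg, neg_neg, h.anti]

/-- `F (a, 2a) = - F (2a, a)`. -/
theorem Rel.two (h : Rel F) (c : ZMod r) : F c (2 * c) = -F (2 * c) c := by
  have h1 := h.u c (2 * c)
  have h2 : F (-(2 * c)) (c - 2 * c) = F (2 * c) c := by
    rw [← h.neg]
    congr 1 <;> ring
  have h3 : F (2 * c - c) (-c) = 0 := by
    have : 2 * c - c = c := by ring
    rw [this, h.anti']
  rw [h2, h3] at h1
  linear_combination h1

theorem Rel.two' (h : Rel F) (c : ZMod r) : F (-c) (2 * c) = F c (2 * c) := by
  rw [h.s (2 * c) c, h.two]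

theorem Rel.two'' (h : Rel F) (c : ZMod r) : F c (-(2 * c)) = F c (2 * c) := by
  rw [← h.two', ← h.neg, neg_neg]

theorem Rel.half (h : Rel F) (c : ZMod r) : F (2 * c) (-c) = F (2 * c) c := by
  rw [← h.neg, neg_neg, h.s c (2 * c), h.two, neg_neg]

theorem Rel.even (h : Rel F) (hr : r = 3 ∨ r = 5 ∨ r = 7) (d : ZMod r) (hd : d ≠ 0) :
    F 1 (-d) = F 1 d := by
  rcases hr with rfl | rfl | rfl
  · have : d = 1 ∨ d = -1 := by revert d; decide
    rcases this with rfl | rfl
    · rw [h.anti', h.diag]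
    · rw [neg_neg, h.anti', h.diag]
  · have : d = 1 ∨ d = -1 ∨ d = 2 * 1 ∨ d = -(2 * 1) := by revert d; decide
    rcases this with rfl | rfl | rfl | rfl
    · rw [h.anti', h.diag]
    · rw [neg_neg, h.anti', h.diag]
    · rw [h.two'']
    · rw [neg_neg, h.two'']
  · have : d = 1 ∨ d = -1 ∨ d = 2 * 1 ∨ d = -(2 * 1) ∨ d = 4 ∨ d = -4 := by revert d; decide
    have h4 : F 1 (-4) = F 1 4 := h.half 4
    rcases this with rfl | rfl | rfl | rfl | rfl | rfl
    · rw [h.anti', h.diag]
    · rw [neg_neg, h.anti', h.diag]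
    · rw [h.two'']
    · rw [neg_neg, h.two'']
    · exact h4
    · rw [neg_neg, h4]

theorem Rel.double (h : Rel F) (hr : r = 3 ∨ r = 5 ∨ r = 7) (c : ZMod r) (hc : c ≠ 0) :
    F c (2 * c) = F 1 (2 * c) - F 1 c := by
  have hneg : ∀ c, c ≠ 0 → 2 * c ≠ 0 → F c (2 * c) = F 1 (2 * c) - F 1 c →
      F (-c) (2 * -c) = F 1 (2 * -c) - F 1 (-c) := by
    intro c hc hc2 h1
    rw [mul_neg, h.neg, h.even hr _ hc2, h.even hr _ hc, h1]
  rcases hr with rfl | rfl | rfl
  · have h1 : ∀ d : ZMod 3, 2 * d = -d := by decide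
    have h0 : F 1 c = 0 := by
      have : c = 1 ∨ c = -1 := by revert c; decide
      rcases this with rfl | rfl
      · rw [h.diag]
      · rw [h.anti']
    have h2 : F 1 (-c) = 0 := by
      rw [h.even (Or.inl rfl) c hc, h0]
    rw [h1, h.anti', h0, h2, sub_zero]
  · have h1 : F 1 (2 * 1) = F 1 (2 * 1) - F 1 1 := by rw [h.diag, sub_zero]
    have h2 : F 2 (2 * 2) = F 1 (2 * 2) - F 1 2 := by
      have h3 : F 2 4 = F 2 1 := h.half 1
      have h4 : F 1 2 = -F 2 1 := h.two 1
      have h5 : F 1 4 = 0 := h.anti' 1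
      change F 2 4 = F 1 4 - F 1 2
      rw [h3, h4, h5]
      ring
    have : c = 1 ∨ c = 2 ∨ c = -1 ∨ c = -2 := by revert c; decide
    rcases this with rfl | rfl | rfl | rfl
    · exact h1
    · exact h2
    · exact hneg 1 (by decide) (by decide) h1
    · exact hneg 2 (by decide) (by decide) h2
  · have h1 : F 1 (2 * 1) = F 1 (2 * 1) - F 1 1 := by rw [h.diag, sub_zero]
    have h2 : F 2 (2 * 2) = F 1 (2 * 2) - F 1 2 := by
      have h3 : F 1 3 + F 4 5 + F 2 6 = 0 := h.u 1 3
      have h4 : F 4 5 = F 4 2 := h.half 2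
      have h5 : F 2 6 = F 2 1 := h.half 1
      have h6 : F 1 3 = F 1 4 := h.half 4
      have h7 : F 2 4 = -F 4 2 := h.two 2
      have h8 : F 1 2 = -F 2 1 := h.two 1
      change F 2 4 = F 1 4 - F 1 2
      linear_combination h7 - h3 + h6 + h4 + h5 + h8
    have h4 : F 4 (2 * 4) = F 1 (2 * 4) - F 1 4 := by
      have h3 : F 4 1 = -F 1 4 := h.two 4
      have h5 : F 1 1 = 0 := h.diag 1
      change F 4 1 = F 1 1 - F 1 4
      rw [h3, h5]
      ring
    have : c = 1 ∨ c = 2 ∨ c = 4 ∨ c = -1 ∨ c = -2 ∨ c = -4 := by revert c; decide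
    rcases this with rfl | rfl | rfl | rfl | rfl | rfl
    · exact h1
    · exact h2
    · exact h4
    · exact hneg 1 (by decide) (by decide) h1
    · exact hneg 2 (by decide) (by decide) h2
    · exact hneg 4 (by decide) (by decide) h4

theorem Rel.star (h : Rel F) (hr : r = 3 ∨ r = 5 ∨ r = 7) (c d : ZMod r) (hc : c ≠ 0)
    (hd : d ≠ 0) : F c d = F 1 d - F 1 c := by
  have hcases : d = c ∨ d = -c ∨ d = 2 * c ∨ d = -(2 * c) ∨ c = 2 * d ∨ c = -(2 * d) := by
    rcases hr with rfl | rfl | rfl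
    · revert c d; decide
    · revert c d; decide
    · revert c d; decide
  rcases hcases with rfl | rfl | rfl | rfl | rfl | rfl
  · rw [h.diag, sub_self]
  · rw [h.anti', h.even hr c hc, sub_self]
  · exact h.double hr c hc
  · have h1 : 2 * c ≠ 0 := by
      intro h2; rw [h2, neg_zero] at hd; exact hd rfl
    rw [h.two'', h.even hr _ h1, h.double hr c hc]
  · have h1 := h.double hr d hd
    rw [h.two] at h1
    linear_combination -h1
  · have h1 := h.double hr d hd
    have h2 : 2 * d ≠ 0 := by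
      intro h2; rw [h2, neg_zero] at hc; exact hc rfl
    rw [h.two] at h1
    rw [h.even hr _ h2, ← h.neg, neg_neg, h.half]
    linear_combination -h1

end solve

/-! ### The boundary functions -/

section boundary

variable {K : Type*} [Field K] {r : ℕ} [Fact r.Prime]

/-- The boundary function. -/
noncomputable def psi (F : ZMod r → ZMod r → K) (x h : Fin 2 → ZMod r) : K :=
  if x 0 * h 1 - x 1 * h 0 = 0 then
    F (if x 0 = 0 then h 1 / x 1 else h 0 / x 0) 0 + F 1 (if x 0 = 0 then h 1 / x 1 else h 0 / x 0)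
  else F 1 (x 0 * h 1 - x 1 * h 0)

variable {F : ZMod r → ZMod r → K}

theorem psi_of_ne {x h : Fin 2 → ZMod r} (hd : x 0 * h 1 - x 1 * h 0 ≠ 0) :
    psi F x h = F 1 (x 0 * h 1 - x 1 * h 0) := by
  rw [psi, if_neg hd]

theorem psi_smul {x : Fin 2 → ZMod r} (hx : x ≠ 0) (t : ZMod r) :
    psi F x (t • x) = F t 0 + F 1 t := by
  have h1 : x 0 * (t • x) 1 - x 1 * (t • x) 0 = 0 := by
    simp only [Pi.smul_apply, smul_eq_mul]
    ring
  have h2 : (if x 0 = 0 then (t • x) 1 / x 1 else (t • x) 0 / x 0) = t := by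
    simp only [Pi.smul_apply, smul_eq_mul]
    split_ifs with h0
    · have h3 : x 1 ≠ 0 := by
        intro h3
        apply hx
        ext i
        fin_cases i
        · exact h0
        · exact h3
      rw [mul_div_cancel_right₀ _ h3]
    · rw [mul_div_cancel_right₀ _ h0]
  rw [psi, if_pos h1, h2]

theorem exists_smul {x h : Fin 2 → ZMod r} (hx : x ≠ 0) (hd : x 0 * h 1 - x 1 * h 0 = 0) :
    ∃ t : ZMod r, h = t • x := by
  by_cases h0 : x 0 = 0
  · have h3 : x 1 ≠ 0 := by
      intro h3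
      apply hx
      ext i
      fin_cases i
      · exact h0
      · exact h3
    refine ⟨h 1 / x 1, ?_⟩
    rw [h0, zero_mul, zero_sub, neg_eq_zero, mul_eq_zero] at hd
    ext i
    fin_cases i
    · simp [h0, hd.resolve_left h3]
    · simp [h3]
  · refine ⟨h 0 / x 0, ?_⟩
    ext i
    fin_cases i
    · simp [h0]
    · simp only [Fin.mk_one, Pi.smul_apply, smul_eq_mul]
      field_simp
      linear_combination hd

theorem psi_mul (g : Matrix (Fin 2) (Fin 2) (ZMod r)) (hg : g.det = 1) {x : Fin 2 → ZMod r}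
    (hx : x ≠ 0) (h : Fin 2 → ZMod r) : psi F (g *ᵥ x) (g *ᵥ h) = psi F x h := by
  rw [Matrix.det_fin_two] at hg
  have h1 : (g *ᵥ x) 0 * (g *ᵥ h) 1 - (g *ᵥ x) 1 * (g *ᵥ h) 0 = x 0 * h 1 - x 1 * h 0 := by
    simp only [Matrix.mulVec, dotProduct, Fin.sum_univ_two]
    linear_combination (x 0 * h 1 - x 1 * h 0) * hg
  by_cases hd : x 0 * h 1 - x 1 * h 0 = 0
  · obtain ⟨t, rfl⟩ := exists_smul hx hd
    have h2 : g *ᵥ x ≠ 0 := by
      intro h2
      apply hx
      have h3 := congrFun h2 0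
      have h4 := congrFun h2 1
      simp only [Matrix.mulVec, dotProduct, Fin.sum_univ_two, Pi.zero_apply] at h3 h4
      ext i
      fin_cases i
      · change x 0 = 0
        linear_combination (-x 0) * hg + g 1 1 * h3 - g 0 1 * h4
      · change x 1 = 0
        linear_combination (-x 1) * hg - g 1 0 * h3 + g 0 0 * h4
    rw [Matrix.mulVec_smul, psi_smul h2, psi_smul hx]
  · rw [psi_of_ne (by rwa [h1]), psi_of_ne hd, h1]

theorem psi_neg (hF : Rel F) (hr : r = 3 ∨ r = 5 ∨ r = 7) {x h : Fin 2 → ZMod r} (hx : x ≠ 0)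
    (hh : h ≠ 0) : psi F (-x) h = psi F x h := by
  by_cases hd : x 0 * h 1 - x 1 * h 0 = 0
  · obtain ⟨t, rfl⟩ := exists_smul hx hd
    have ht : t ≠ 0 := by
      rintro rfl
      exact hh (zero_smul _ _)
    have h2 : t • x = (-t) • (-x) := by
      rw [smul_neg, neg_smul, neg_neg]
    rw [h2, psi_smul (neg_ne_zero.mpr hx), ← h2, psi_smul hx, hF.even hr t ht]
    have h3 := hF.neg t 0
    rw [neg_zero] at h3
    rw [h3]
  · have h1 : (-x) 0 * h 1 - (-x) 1 * h 0 = -(x 0 * h 1 - x 1 * h 0) := by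
      simp only [Pi.neg_apply]
      ring
    rw [psi_of_ne (by rw [h1]; exact neg_ne_zero.mpr hd), psi_of_ne hd, h1, hF.even hr _ hd]

theorem F_eq_psi (hF : Rel F) (hr : r = 3 ∨ r = 5 ∨ r = 7) (h : Fin 2 → ZMod r) (hh : h ≠ 0) :
    F (h 0) (h 1) = psi F ![1, 0] h - psi F ![0, 1] h := by
  have he1 : (![1, 0] : Fin 2 → ZMod r) ≠ 0 := by
    intro h1; simpa using congrFun h1 0
  have he2 : (![0, 1] : Fin 2 → ZMod r) ≠ 0 := by
    intro h1; simpa using congrFun h1 1
  by_cases h1 : h 1 = 0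
  · have h0 : h 0 ≠ 0 := by
      intro h0
      apply hh
      ext i
      fin_cases i
      · exact h0
      · exact h1
    have h2 : h = (h 0) • ![1, 0] := by
      ext i
      fin_cases i
      · simp
      · simp [h1]
    have h3 : psi F ![1, 0] h = F (h 0) 0 + F 1 (h 0) := by
      conv_lhs => rw [h2]
      rw [psi_smul he1]
    have h4 : psi F ![0, 1] h = F 1 (h 0) := by
      rw [psi_of_ne (by simpa using h0)]
      simp [hF.even hr _ h0]
    rw [h3, h4, h1]
    ring
  · by_cases h0 : h 0 = 0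
    · have h2 : h = (h 1) • ![0, 1] := by
        ext i
        fin_cases i
        · simp [h0]
        · simp
      have h3 : psi F ![0, 1] h = F (h 1) 0 + F 1 (h 1) := by
        conv_lhs => rw [h2]
        rw [psi_smul he2]
      have h4 : psi F ![1, 0] h = F 1 (h 1) := by
        rw [psi_of_ne (by simpa using h1)]
        simp
      have h5 := hF.s (h 1) 0
      rw [neg_zero] at h5
      rw [h3, h4, h0, h5]
      ring
    · have h3 : psi F ![0, 1] h = F 1 (h 0) := by
        rw [psi_of_ne (by simpa using h0)]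
        simp [hF.even hr _ h0]
      have h4 : psi F ![1, 0] h = F 1 (h 1) := by
        rw [psi_of_ne (by simpa using h1)]
        simp
      rw [h3, h4]
      exact hF.star hr _ _ h0 h1

end boundary

end Pool.Agent.Helper44.MT
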