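import Pool.Agent.Helper44.MT.Gen
import Pool.Agent.Helper44.MT.Weight
import Pool.Agent.Helper44.MT.Vec

/-!
# From characteristic zero to characteristic `r`
-/

set_option autoImplicit false

namespace Pool.Agent.Helper44.MT

open MvPolynomial Matrix

/-- Commuting operators have a common eigenvector. -/
theorem exists_common {A V : Type*} [Field A] [IsAlgClosed A] [AddCommGroup V] [Module A V]
    [FiniteDimensional A V] [Nontrivial V] (S T : Module.End A V) (hc : Commute S T) :
    ∃ v : V, v ≠ 0 ∧ ∃ x y : A, S v = x • v ∧ T v = y • v := by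
  obtain ⟨x, hx⟩ := Module.End.exists_eigenvalue S
  have hst : ∀ v ∈ S.eigenspace x, T v ∈ S.eigenspace x := by
    intro v hv
    rw [Module.End.mem_eigenspace_iff] at hv ⊢
    rw [← Module.End.mul_apply, hc.eq, Module.End.mul_apply, hv, map_smul]
  have : Nontrivial (S.eigenspace x) := Submodule.nontrivial_iff_ne_bot.mpr hx
  obtain ⟨y, hy⟩ := Module.End.exists_eigenvalue (T.restrict hst)
  obtain ⟨w, hw⟩ := hy.exists_hasEigenvector
  refine ⟨w, ?_, x, y, Module.End.mem_eigenspace_iff.mp w.2, ?_⟩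
  · intro h
    exact hw.2 (Subtype.ext h)
  · have := hw.apply_eq_smul
    exact congrArg Subtype.val this

section

variable {N k : ℕ} {A : Type*} [AddCommGroup A] {f : Cochain N A}

theorem IsSymbol.self (hf : IsSymbol k f) (x : Fin 2 → ℤ) (H : Matrix (Fin 2) (Fin 2) (ZMod N))
    (P : MvPolynomial (Fin 2) ℤ) : f x x H P = 0 := by
  by_cases hx : x = 0
  · rw [hx, hf.zero_left]
  · have := hf.trans x x x hx hx hx H P
    simpa using this

theorem IsSymbol.anti (hf : IsSymbol k f) (x y : Fin 2 → ℤ)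
    (H : Matrix (Fin 2) (Fin 2) (ZMod N)) (P : MvPolynomial (Fin 2) ℤ) :
    f y x H P = -f x y H P := by
  by_cases hx : x = 0
  · rw [hx, hf.zero_left, hf.zero_right, neg_zero]
  · by_cases hy : y = 0
    · rw [hy, hf.zero_left, hf.zero_right, neg_zero]
    · have := hf.trans x y x hx hy hx H P
      rw [hf.self] at this
      exact eq_neg_of_add_eq_zero_right this

theorem IsSymbol.scale' (hf : IsSymbol k f) (n : ℤ) (hn : n ≠ 0) (x y : Fin 2 → ℤ)
    (H : Matrix (Fin 2) (Fin 2) (ZMod N)) (P : MvPolynomial (Fin 2) ℤ) :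
    f x (n • y) H P = f x y H P := by
  rw [hf.anti, hf.scale n hn, ← hf.anti]

/-- A symbol takes values in every subgroup which contains the values at the path from `0` to
infinity. -/
theorem IsSymbol.mem (hf : IsSymbol k f) (B : AddSubgroup A)
    (hB : ∀ H P, f ![0, 1] ![1, 0] H P ∈ B) (x y : Fin 2 → ℤ)
    (H : Matrix (Fin 2) (Fin 2) (ZMod N)) (P : MvPolynomial (Fin 2) ℤ) : f x y H P ∈ B := by
  have hmain : ∀ x y : Fin 2 → ℤ, IsCoprime (x 0) (x 1) → IsCoprime (y 0) (y 1) →
      ∀ H P, f y x H P ∈ B := by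
    intro x y hx hy
    have := gen (fun x y => x ≠ 0 ∧ y ≠ 0 ∧ ∀ H P, f y x H P ∈ B) ?_ ?_ ?_ ?_ x y hx hy
    · exact this.2.2
    · rintro x y ⟨hx, hy, h1⟩
      refine ⟨hy, hx, fun H P => ?_⟩
      rw [hf.anti]
      exact B.neg_mem (h1 H P)
    · rintro x y z _ _ _ ⟨hx, hy, h1⟩ ⟨_, hz, h2⟩
      refine ⟨hx, hz, fun H P => ?_⟩
      rw [← hf.trans z y x hz hy hx]
      exact B.add_mem (h2 H P) (h1 H P)
    · intro x hx
      have hx0 := ne_zero_of_coprime hx
      refine ⟨hx0, neg_ne_zero.mpr hx0, fun H P => ?_⟩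
      have h1 : -x = (-1 : ℤ) • x := by simp
      rw [h1, hf.scale _ (by norm_num), hf.self]
      exact B.zero_mem
    · intro x y hxy
      have hx0 : x ≠ 0 := by
        rintro rfl
        simp at hxy
      have hy0 : y ≠ 0 := by
        rintro rfl
        simp at hxy
      refine ⟨hx0, hy0, fun H P => ?_⟩
      set g : Matrix (Fin 2) (Fin 2) ℤ := !![x 0, y 0; x 1, y 1] with hg
      have hdet : g.det = 1 := by
        rw [hg, Matrix.det_fin_two_of]
        linear_combination hxy
      have hge1 : g *ᵥ ![1, 0] = x := by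
        ext i; fin_cases i <;> simp [hg, Matrix.mulVec, dotProduct, Fin.sum_univ_two]
      have hge2 : g *ᵥ ![0, 1] = y := by
        ext i; fin_cases i <;> simp [hg, Matrix.mulVec, dotProduct, Fin.sum_univ_two]
      set gb : Matrix (Fin 2) (Fin 2) (ZMod N) := g.map (Int.cast : ℤ → ZMod N) with hgb
      have hdetb : gb.det = 1 := by
        have h1 := RingHom.map_det (Int.castRingHom (ZMod N)) g
        rw [hdet, map_one] at h1
        exact h1.symm
      have h3 := congrFun (congrFun (congrFun (congrFun (hf.inv g hdet) ![0, 1]) ![1, 0])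
        (gb.adjugate * H)) (subst g P)
      simp only [act] at h3
      rw [hge1, hge2, ← hgb, ← Matrix.mul_assoc, Matrix.mul_adjugate, hdetb, one_smul,
        Matrix.one_mul, subst_subst, Matrix.mul_adjugate, hdet, one_smul, subst_one] at h3
      rw [h3]
      exact hB _ _
  by_cases hx : x = 0
  · rw [hx, hf.zero_left]
    exact B.zero_mem
  · by_cases hy : y = 0
    · rw [hy, hf.zero_right]
      exact B.zero_mem
    · obtain ⟨n, hn, x', hx', rfl⟩ := exists_coprime x hx
      obtain ⟨m, hm, y', hy', rfl⟩ := exists_coprime y hy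
      rw [hf.scale _ hn, hf.scale' _ hm]
      exact hmain y' x' hy' hx' H P

/-- The values at one path and one matrix are combinations of the values at monomials. -/
theorem IsSymbol.mem_span (hf : IsSymbol k f) (x y : Fin 2 → ℤ)
    (H : Matrix (Fin 2) (Fin 2) (ZMod N)) (B : AddSubgroup A)
    (hB : ∀ i j : Fin (k + 1), f x y H (monomial (Finsupp.single 0 (i : ℕ) +
      Finsupp.single 1 (j : ℕ)) 1) ∈ B) (P : MvPolynomial (Fin 2) ℤ) : f x y H P ∈ B := by
  let φ : MvPolynomial (Fin 2) ℤ →+ A := AddMonoidHom.mk' (f x y H) (hf.poly x y H)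
  change φ P ∈ B
  rw [← P.support_sum_monomial_coeff, map_sum]
  refine B.sum_mem fun m _ => ?_
  have h1 : monomial m (coeff m P) = (coeff m P) • (monomial m (1 : ℤ)) := by
    rw [smul_monomial, smul_eq_mul, mul_one]
  rw [h1, map_zsmul]
  refine B.zsmul_mem ?_ _
  change f x y H (monomial m 1) ∈ B
  by_cases hm : m.degree + 2 = k
  · have h2 : m = Finsupp.single 0 (m 0) + Finsupp.single 1 (m 1) := by
      ext i
      fin_cases i <;> simp
    have h3 : m.degree = m 0 + m 1 := by
      rw [Finsupp.degree_eq_sum, Fin.sum_univ_two]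
    have h4 := hB ⟨m 0, by omega⟩ ⟨m 1, by omega⟩
    simp only at h4
    rw [← h2] at h4
    exact h4
  · rw [hf.weight x y H _ m.degree (isHomogeneous_monomial 1 rfl) hm]
    exact B.zero_mem

end

/-- From characteristic zero to characteristic `r`. -/
theorem lemA {r : ℕ} [Fact r.Prime] {K : Type*} [Field K] [CharZero K] {k N p : ℕ} [NeZero N]
    (h : Regular (AlgebraicClosure (ZMod r)) k N p) : Regular K k N p := by
  intro f a c hf hT hR hac
  by_contra hf0
  -- the group of values
  set V : Set K := {z | ∃ x y H P, z = f x y H P} with hV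
  set Λ : Submodule ℤ K := Submodule.span ℤ V with hΛ
  have hmem : ∀ x y H P, f x y H P ∈ Λ := fun x y H P => Submodule.subset_span ⟨x, y, H, P, rfl⟩
  set S : Set K := Set.range fun q : Matrix (Fin 2) (Fin 2) (ZMod N) × Fin (k + 1) × Fin (k + 1) =>
    f ![0, 1] ![1, 0] q.1 (monomial (Finsupp.single 0 (q.2.1 : ℕ) +
      Finsupp.single 1 (q.2.2 : ℕ)) 1) with hS
  have hSfin : S.Finite := Set.finite_range _
  have hle : Λ ≤ Submodule.span ℤ S := by
    rw [hΛ, Submodule.span_le]
    rintro z ⟨x, y, H, P, rfl⟩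
    have h0 : ∀ H (i j : Fin (k + 1)), f ![0, 1] ![1, 0] H (monomial (Finsupp.single 0 (i : ℕ) +
        Finsupp.single 1 (j : ℕ)) 1) ∈ Submodule.span ℤ S := fun H i j =>
      Submodule.subset_span ⟨(H, i, j), rfl⟩
    have h1 := hf.mem (Submodule.span ℤ S).toAddSubgroup (fun H P =>
      hf.mem_span ![0, 1] ![1, 0] H _ (fun i j => h0 H i j) P) x y H P
    exact h1
  have hfin : Module.Finite ℤ Λ := by
    have : IsNoetherian ℤ (Submodule.span ℤ S) :=
      isNoetherian_span_of_finite ℤ hSfin
    exact Module.Finite.of_injective (Submodule.inclusion hle) (Submodule.inclusion_injective hle)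
  have hfree : Module.Free ℤ Λ := inferInstance
  have hΛnt : Nontrivial Λ := by
    rw [Submodule.nontrivial_iff_ne_bot]
    intro hbot
    apply hf0
    funext x y H P
    have := hmem x y H P
    rw [hbot, Submodule.mem_bot] at this
    exact this
  -- the operators on the group of values
  have hTΛ : ∀ z ∈ Λ, a * z ∈ Λ := by
    intro z hz
    induction hz using Submodule.span_induction with
    | mem z hz =>
      obtain ⟨x, y, H, P, rfl⟩ := hz
      have h1 := congrFun (congrFun (congrFun (congrFun hT x) y) H) P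
      simp only [T, Pi.add_apply, Finset.sum_apply, Pi.smul_apply, smul_eq_mul] at h1
      rw [← h1]
      exact Λ.add_mem (hmem _ _ _ _) (Λ.sum_mem fun i _ => hmem _ _ _ _)
    | zero => rw [mul_zero]; exact Λ.zero_mem
    | add z w _ _ hz hw => rw [mul_add]; exact Λ.add_mem hz hw
    | smul n z _ hz => rw [mul_smul_comm]; exact Λ.smul_mem n hz
  have hRΛ : ∀ z ∈ Λ, c * z ∈ Λ := by
    intro z hz
    induction hz using Submodule.span_induction with
    | mem z hz =>
      obtain ⟨x, y, H, P, rfl⟩ := hz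
      have h1 := congrFun (congrFun (congrFun (congrFun hR x) y) H) P
      simp only [R, Pi.smul_apply, smul_eq_mul] at h1
      rw [← h1]
      exact hmem _ _ _ _
    | zero => rw [mul_zero]; exact Λ.zero_mem
    | add z w _ _ hz hw => rw [mul_add]; exact Λ.add_mem hz hw
    | smul n z _ hz => rw [mul_smul_comm]; exact Λ.smul_mem n hz
  set mA : Λ →ₗ[ℤ] Λ := (LinearMap.mulLeft ℤ a).restrict hTΛ with hmA
  set mC : Λ →ₗ[ℤ] Λ := (LinearMap.mulLeft ℤ c).restrict hRΛ with hmC
  have hmA' : ∀ z : Λ, ((mA z : Λ) : K) = a * z := fun z => rfl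
  have hmC' : ∀ z : Λ, ((mC z : Λ) : K) = c * z := fun z => rfl
  -- the dual space
  set A := AlgebraicClosure (ZMod r) with hA
  set b := Module.Free.chooseBasis ℤ Λ with hb
  have e : (Module.Free.ChooseBasisIndex ℤ Λ → A) ≃ₗ[A] (Λ →ₗ[ℤ] A) := b.constr A
  have hDfin : FiniteDimensional A (Λ →ₗ[ℤ] A) := Module.Finite.equiv e
  have hind : Nonempty (Module.Free.ChooseBasisIndex ℤ Λ) := b.index_nonempty
  have hDnt : Nontrivial (Λ →ₗ[ℤ] A) := e.symm.toEquiv.nontrivial
  let opA : Module.End A (Λ →ₗ[ℤ] A) :=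
    { toFun := fun ξ => ξ.comp mA
      map_add' := fun _ _ => rfl
      map_smul' := fun _ _ => rfl }
  let opC : Module.End A (Λ →ₗ[ℤ] A) :=
    { toFun := fun ξ => ξ.comp mC
      map_add' := fun _ _ => rfl
      map_smul' := fun _ _ => rfl }
  have hcomm : Commute opA opC := by
    ext ξ z
    change ξ (mC (mA z)) = ξ (mA (mC z))
    congr 1
    apply Subtype.ext
    rw [hmA', hmC', hmC', hmA']
    ring
  obtain ⟨ξ, hξ0, a', c', hξA, hξC⟩ := exists_common opA opC hcomm
  have hξA' : ∀ z : Λ, ξ (mA z) = a' * ξ z := fun z => LinearMap.congr_fun hξA z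
  have hξC' : ∀ z : Λ, ξ (mC z) = c' * ξ z := fun z => LinearMap.congr_fun hξC z
  -- the reduced symbol
  set val : (Fin 2 → ℤ) → (Fin 2 → ℤ) → Matrix (Fin 2) (Fin 2) (ZMod N) →
    MvPolynomial (Fin 2) ℤ → Λ := fun x y H P => ⟨f x y H P, hmem x y H P⟩ with hval
  have hvalc : ∀ x y H P, ((val x y H P : Λ) : K) = f x y H P := fun _ _ _ _ => rfl
  set f' : Cochain N A := fun x y H P => ξ (val x y H P) with hf'
  have hval0 : ∀ x y H P, f x y H P = 0 → f' x y H P = 0 := by
    intro x y H P h1
    have h2 : val x y H P = 0 := Subtype.ext h1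
    rw [hf']
    dsimp only
    rw [h2, map_zero]
  have h1 : IsSymbol k f' := by
    refine ⟨fun y H P => hval0 _ _ _ _ (hf.zero_left y H P),
      fun x H P => hval0 _ _ _ _ (hf.zero_right x H P), fun x y H P Q => ?_,
      fun x y H P i hi hi2 => hval0 _ _ _ _ (hf.weight x y H P i hi hi2),
      fun x y z hx hy hz H P => ?_, fun n hn x y H P => ?_, fun g hg => ?_⟩
    · have h2 : val x y H (P + Q) = val x y H P + val x y H Q := Subtype.ext (hf.poly x y H P Q)
      simp only [hf', h2, map_add]
    · have h2 : val x y H P + val y z H P = val x z H P :=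
        Subtype.ext (hf.trans x y z hx hy hz H P)
      simp only [hf', ← h2, map_add]
    · have h2 : val (n • x) y H P = val x y H P := Subtype.ext (hf.scale n hn x y H P)
      simp only [hf', h2]
    · funext x y H P
      have h2 : val (g *ᵥ x) (g *ᵥ y) (g.map (Int.cast : ℤ → ZMod N) * H) (subst g.adjugate P) =
          val x y H P :=
        Subtype.ext (congrFun (congrFun (congrFun (congrFun (hf.inv g hg) x) y) H) P)
      simp only [act, hf', h2]
  have h2 : T p f' = a' • f' := by
    funext x y H P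
    have h3 := congrFun (congrFun (congrFun (congrFun hT x) y) H) P
    simp only [T, Pi.add_apply, Finset.sum_apply, Pi.smul_apply, smul_eq_mul, act] at h3
    simp only [T, Pi.add_apply, Finset.sum_apply, Pi.smul_apply, smul_eq_mul, act]
    change ξ (val _ _ _ _) + ∑ i ∈ Finset.range p, ξ (val _ _ _ _) = a' * ξ (val x y H P)
    rw [← hξA', ← map_sum, ← map_add]
    congr 1
    apply Subtype.ext
    rw [hmA']
    push_cast
    simp only [hvalc]
    exact h3
  have h3 : R p f' = c' • f' := by
    funext x y H P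
    have h3 := congrFun (congrFun (congrFun (congrFun hR x) y) H) P
    simp only [R, Pi.smul_apply, smul_eq_mul, act] at h3
    simp only [R, Pi.smul_apply, smul_eq_mul, act]
    change ξ (val _ _ _ _) = c' * ξ (val x y H P)
    rw [← hξC']
    congr 1
    apply Subtype.ext
    rw [hmC']
    simp only [hvalc]
    exact h3
  have h4 : a' ^ 2 = 4 * p * c' := by
    obtain ⟨z, hz⟩ : ∃ z, ξ z ≠ 0 := by
      by_contra hcon
      push Not at hcon
      exact hξ0 (LinearMap.ext hcon)
    have h5 : mA (mA z) = (4 * (p : ℤ)) • mC z := by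
      apply Subtype.ext
      rw [hmA', hmA', Submodule.coe_smul, hmC', zsmul_eq_mul]
      push_cast
      linear_combination (z : K) * hac
    have h6 := congrArg ξ h5
    rw [hξA', hξA', map_zsmul, hξC', zsmul_eq_mul] at h6
    push_cast at h6
    have h7 : (a' ^ 2 - 4 * p * c') * ξ z = 0 := by linear_combination h6
    rcases mul_eq_zero.mp h7 with h8 | h8
    · exact sub_eq_zero.mp h8
    · exact absurd h8 hz
  have h5 := h f' a' c' h1 h2 h3 h4
  apply hξ0
  have h6 : ∀ z (hz : z ∈ Λ), ξ ⟨z, hz⟩ = 0 := by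
    intro z hz
    induction hz using Submodule.span_induction with
    | mem z hz =>
      obtain ⟨x, y, H, P, rfl⟩ := hz
      exact congrFun (congrFun (congrFun (congrFun h5 x) y) H) P
    | zero => exact map_zero ξ
    | add z w hz hw hz' hw' =>
      have h7 : (⟨z + w, Λ.add_mem hz hw⟩ : Λ) = ⟨z, hz⟩ + ⟨w, hw⟩ := rfl
      rw [h7, map_add, hz', hw', add_zero]
    | smul n z hz hz' =>
      have h7 : (⟨n • z, Λ.smul_mem n hz⟩ : Λ) = n • ⟨z, hz⟩ := rfl
      rw [h7, map_smul, hz', smul_zero]
  ext z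
  exact h6 z.1 z.2

end Pool.Agent.Helper44.MT
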