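import Pool.Agent.Helper44.MT.Column

/-!
# From full level `r` to vectors: the theorem
-/

set_option autoImplicit false

namespace Pool.Agent.Helper44.MT

open Matrix

/-- From full level `r` to the level structure of vectors. -/
theorem lemC {A : Type*} [Field A] [IsAlgClosed A] {r : ℕ} [Fact r.Prime] [CharP A r] {p : ℕ}
    (hp : p.Coprime r) (h : Regular2 A (mvec r) p (fun f => ∀ x y, f x y 0 = 0)) :
    Regular2 A (mfull r) p (fun _ => True) := by
  classical
  intro f a c hf _ hT hR hac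
  by_contra hf0
  have hp0 : (p : ZMod r) ≠ 0 := by
    have := (ZMod.isUnit_iff_coprime p r).mpr hp
    exact this.ne_zero
  obtain ⟨g0, hg0, hg0n⟩ := exists_supported hp hf hT hR hf0
  -- the unipotent matrix
  set u : Matrix (Fin 2) (Fin 2) (ZMod r) := !![1, 1; 0, 1] with hu
  have hupow : ∀ n : ℕ, u ^ n = !![1, (n : ZMod r); 0, 1] := by
    intro n
    induction n with
    | zero => simp [Matrix.one_fin_two]
    | succ n ih =>
      rw [pow_succ, ih, hu, Matrix.mul_fin_two]
      ext i j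
      fin_cases i <;> fin_cases j <;> simp [add_comm]
  have hudet : IsUnit u.det := by
    rw [hu, Matrix.det_fin_two_of]; simp
  have hur : (rtrans (A := A) u) ^ r = 1 := by
    rw [rtrans_pow, hupow, CharP.cast_eq_zero, ← Matrix.one_fin_two]
    ext f x y H
    rw [rtrans_apply, Matrix.mul_one]
    rfl
  obtain ⟨g1, hg1, hg1n, hg1u⟩ := exists_fix (rtrans (A := A) u) hur (eigenSpace r p a c)
    (fun v hv => rtrans_mem hudet hv) g0 hg0 hg0n
  -- the diagonal matrices
  set t : ZMod r → Matrix (Fin 2) (Fin 2) (ZMod r) := fun d => !![1, 0; 0, d] with ht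
  have htdet : ∀ d, (t d).det = d := by
    intro d
    rw [ht]
    simp [Matrix.det_fin_two_of]
  have htmul : ∀ d e, t d * t e = t (d * e) := by
    intro d e
    simp only [ht, Matrix.mul_fin_two]
    ext i j
    fin_cases i <;> fin_cases j <;> simp
  have ht1 : t 1 = 1 := by
    simp only [ht, Matrix.one_fin_two]
  have htpow : ∀ (d : ZMod r) (n : ℕ), t d ^ n = t (d ^ n) := by
    intro d n
    induction n with
    | zero => rw [pow_zero, pow_zero, ht1]
    | succ n ih => rw [pow_succ, ih, htmul, pow_succ]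
  have hut : ∀ (d : ZMod r) (n : ℕ), u ^ n * t d = t d * !![1, (n : ZMod r) * d; 0, 1] := by
    intro d n
    rw [hupow]
    simp only [ht, Matrix.mul_fin_two]
    ext i j
    fin_cases i <;> fin_cases j <;> simp
  -- the fixed vectors of `u`
  set W : Submodule A (Cochain2 (Matrix (Fin 2) (Fin 2) (ZMod r)) A) :=
    eigenSpace r p a c ⊓ LinearMap.ker (rtrans (A := A) u - 1) with hW
  have hWmem : ∀ g, g ∈ W ↔ g ∈ eigenSpace r p a c ∧ rtrans u g = g := by
    intro g
    rw [hW, Submodule.mem_inf, LinearMap.mem_ker, LinearMap.sub_apply, Module.End.one_apply,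
      sub_eq_zero]
  have hWpow : ∀ g ∈ W, ∀ n : ℕ, ∀ x y H, g x y (H * u ^ n) = g x y H := by
    intro g hg n
    induction n with
    | zero => intro x y H; rw [pow_zero, Matrix.mul_one]
    | succ n ih =>
      intro x y H
      have h1 := congrFun (congrFun (congrFun ((hWmem g).mp hg).2 x) y) (H * u ^ n)
      rw [rtrans_apply, Matrix.mul_assoc, ← pow_succ] at h1
      rw [h1, ih]
  have hWt : ∀ d : ZMod r, d ≠ 0 → ∀ g ∈ W, rtrans (t d) g ∈ W := by
    intro d hd g hg
    rw [hWmem]
    refine ⟨rtrans_mem (by rw [htdet]; exact hd.isUnit) ((hWmem g).mp hg).1, ?_⟩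
    funext x y H
    rw [rtrans_apply, rtrans_apply, rtrans_apply, Matrix.mul_assoc]
    have h1 := hut d 1
    have h2 : (!![1, ((1 : ℕ) : ZMod r) * d; 0, 1] : Matrix (Fin 2) (Fin 2) (ZMod r)) =
        u ^ d.val := by
      rw [hupow, ZMod.natCast_zmod_val]
      simp
    rw [pow_one, h2] at h1
    rw [h1, ← Matrix.mul_assoc, hWpow g hg]
  have hg1W : g1 ∈ W := (hWmem g1).mpr ⟨hg1, hg1u⟩
  -- the eigenvector of `diag (1, p)`
  have hrr : r - 1 ≠ 0 := by
    have := (Fact.out : r.Prime).two_le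
    omega
  have hsr : (rtrans (A := A) (t p)) ^ (r - 1) = 1 := by
    rw [rtrans_pow, htpow, ZMod.pow_card_sub_one_eq_one hp0, ht1]
    ext f x y H
    rw [rtrans_apply, Matrix.mul_one]
    rfl
  obtain ⟨g2, hg2, hg2n, χ, hg2χ⟩ := exists_eigen hrr (rtrans (A := A) (t p)) hsr W
    (fun v hv => hWt p hp0 v hv) g1 hg1W hg1n
  -- move to determinant one
  obtain ⟨x1, y1, H1, hne⟩ : ∃ x y H, g2 x y H ≠ 0 := by
    by_contra h
    push Not at h
    exact hg2n (by funext x y H; exact h x y H)
  have hH1 : IsUnit H1.det := by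
    by_contra hH1
    exact hne (((hWmem g2).mp hg2).1.2.2.2 x1 y1 H1 hH1)
  set d1 : ZMod r := H1.det with hd1
  have hd10 : d1 ≠ 0 := hH1.ne_zero
  set g : Cochain2 (Matrix (Fin 2) (Fin 2) (ZMod r)) A := rtrans (t d1) g2 with hg
  have hgW : g ∈ W := hWt d1 hd10 g2 hg2
  have hgχ : ∀ x y H, g x y (H * t p) = χ * g x y H := by
    intro x y H
    have h1 := congrFun (congrFun (congrFun hg2χ x) y) (H * t d1)
    rw [rtrans_apply, Matrix.mul_assoc, htmul, mul_comm d1, ← htmul, ← Matrix.mul_assoc] at h1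
    exact h1
  obtain ⟨hgs, hgT, hgR, _⟩ := ((hWmem g).mp hgW).1
  have hgne : g x1 y1 (H1 * t d1⁻¹) ≠ 0 := by
    rw [hg, rtrans_apply, Matrix.mul_assoc, htmul, inv_mul_cancel₀ hd10, ht1, Matrix.mul_one]
    exact hne
  have hχ0 : χ ≠ 0 := by
    rintro rfl
    apply hgne
    have h1 := hgχ x1 y1 (H1 * t d1⁻¹ * t (p : ZMod r)⁻¹)
    rw [zero_mul, Matrix.mul_assoc, htmul, inv_mul_cancel₀ hp0, ht1, Matrix.mul_one] at h1
    exact h1
  -- only the first column matters
  have hcol : ∀ x y (H H' : Matrix (Fin 2) (Fin 2) (ZMod r)), H.det = 1 → H'.det = 1 →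
      H 0 0 = H' 0 0 → H 1 0 = H' 1 0 → g x y H' = g x y H := by
    intro x y H H' h1 h2 h3 h4
    obtain ⟨n, rfl⟩ := eq_mul_unip h1 h2 h3 h4
    exact hWpow g hgW n x y H
  -- the symbol on vectors
  set F : Cochain2 (Fin 2 → ZMod r) A := fun x y v => if v = 0 then 0 else g x y (col v) with hF
  have hmv0 : ∀ δ : Matrix (Fin 2) (Fin 2) ℤ, mvec r δ 0 = 0 := fun δ => Matrix.mulVec_zero _
  have hmvne : ∀ δ : Matrix (Fin 2) (Fin 2) ℤ, IsUnit ((δ.det : ℤ) : ZMod r) → ∀ v, v ≠ 0 →
      mvec r δ v ≠ 0 := by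
    intro δ hδ v hv h1
    apply hv
    have h5 : (δ.map (Int.cast : ℤ → ZMod r)).det = ((δ.det : ℤ) : ZMod r) :=
      (RingHom.map_det (Int.castRingHom (ZMod r)) δ).symm
    have h6 : IsUnit (δ.map (Int.cast : ℤ → ZMod r)) := by
      rw [Matrix.isUnit_iff_isUnit_det, h5]; exact hδ
    have h7 := Matrix.mulVec_injective_iff_isUnit.mpr h6
    apply h7
    rw [Matrix.mulVec_zero]
    exact h1
  have hfirst : ∀ (δ : Matrix (Fin 2) (Fin 2) ℤ) (v : Fin 2 → ZMod r),
      (mfull r δ (col v)) 0 0 = (mvec r δ v) 0 ∧ (mfull r δ (col v)) 1 0 = (mvec r δ v) 1 := by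
    intro δ v
    constructor <;>
    simp only [mfull, mvec, Matrix.mul_apply, Matrix.mulVec, dotProduct, Fin.sum_univ_two,
      col_zero_zero, col_one_zero]
  have hdetm : ∀ (δ : Matrix (Fin 2) (Fin 2) ℤ) (H : Matrix (Fin 2) (Fin 2) (ZMod r)),
      (mfull r δ H).det = ((δ.det : ℤ) : ZMod r) * H.det := by
    intro δ H
    have h5 : (δ.map (Int.cast : ℤ → ZMod r)).det = ((δ.det : ℤ) : ZMod r) :=
      (RingHom.map_det (Int.castRingHom (ZMod r)) δ).symm
    rw [mfull, Matrix.det_mul, h5]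
  -- the action on `F`
  have hactn : ∀ (n : ℕ) (δ : Matrix (Fin 2) (Fin 2) ℤ), ((δ.det : ℤ) : ZMod r) = (p : ZMod r) ^ n →
      ∀ x y v, v ≠ 0 → act2 (mfull r) δ g x y (col v) = χ ^ n * act2 (mvec r) δ F x y v := by
    intro n δ hδ x y v hv
    have hpn : (p : ZMod r) ^ n ≠ 0 := pow_ne_zero _ hp0
    have h1 : mvec r δ v ≠ 0 := hmvne δ (by rw [hδ]; exact hpn.isUnit) v hv
    simp only [act2, hF, h1, if_false]
    have hχn : ∀ (n : ℕ) x y H, g x y (H * t ((p : ZMod r) ^ n)) = χ ^ n * g x y H := by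
      intro n
      induction n with
      | zero => intro x y H; rw [pow_zero, pow_zero, ht1, Matrix.mul_one, one_mul]
      | succ n ih =>
        intro x y H
        rw [pow_succ, ← htmul, ← Matrix.mul_assoc, hgχ, ih, pow_succ]
        ring
    have h2 : mfull r δ (col v) = (mfull r δ (col v) * t ((p : ZMod r) ^ n)⁻¹) *
        t ((p : ZMod r) ^ n) := by
      rw [Matrix.mul_assoc, htmul, inv_mul_cancel₀ hpn, ht1, Matrix.mul_one]
    rw [h2, hχn]
    congr 1
    apply hcol
    · exact det_col h1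
    · rw [Matrix.det_mul, hdetm, htdet, det_col hv, hδ, mul_one, mul_inv_cancel₀ hpn]
    · rw [col_zero_zero, ← (hfirst δ v).1]
      simp [ht, Matrix.mul_apply, Fin.sum_univ_two]
    · rw [col_one_zero, ← (hfirst δ v).2]
      simp [ht, Matrix.mul_apply, Fin.sum_univ_two]
  have hact0 : ∀ (δ : Matrix (Fin 2) (Fin 2) ℤ) x y, act2 (mvec r) δ F x y 0 = 0 := by
    intro δ x y
    simp only [act2, hmv0, hF, if_true]
  have hFs : IsSymbol2 (mvec r) F := by
    refine ⟨fun y h => ?_, fun x h => ?_, fun x y z hx hy hz h => ?_, fun n hn x y h => ?_,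
      fun δ hδ => ?_⟩
    · simp [hF, hgs.zero_left]
    · simp [hF, hgs.zero_right]
    · simp only [hF]
      split_ifs
      · simp
      · exact hgs.trans x y z hx hy hz _
    · simp only [hF, hgs.scale n hn]
    · funext x y v
      by_cases hv : v = 0
      · rw [hv, hact0]
        simp [hF]
      · have h1 := hactn 0 δ (by rw [hδ]; simp) x y v hv
        rw [pow_zero, one_mul, hgs.inv δ hδ] at h1
        rw [← h1]
        simp [hF, hv]
  have hFT : T2 (mvec r) p F = (a / χ) • F := by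
    funext x y v
    by_cases hv : v = 0
    · rw [hv]
      simp only [T2, Pi.add_apply, Finset.sum_apply, Pi.smul_apply, hact0]
      simp [hF]
    · have h4 := congrFun (congrFun (congrFun hgT x) y) (col v)
      simp only [T2, Pi.add_apply, Finset.sum_apply, Pi.smul_apply, smul_eq_mul] at h4
      rw [hactn 1 _ (by rw [Matrix.det_fin_two_of]; simp) x y v hv, Finset.sum_congr rfl (fun i _ =>
        hactn 1 _ (by rw [Matrix.det_fin_two_of]; simp) x y v hv), ← Finset.mul_sum, pow_one,
        ← mul_add] at h4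
      simp only [T2, Pi.add_apply, Finset.sum_apply, Pi.smul_apply, smul_eq_mul]
      have h5 : F x y v = g x y (col v) := by simp [hF, hv]
      rw [h5]
      field_simp
      linear_combination h4
  have hFR : R2 (mvec r) p F = (c / χ ^ 2) • F := by
    funext x y v
    by_cases hv : v = 0
    · rw [hv]
      simp only [R2, Pi.smul_apply, hact0]
      simp [hF]
    · have h4 := congrFun (congrFun (congrFun hgR x) y) (col v)
      simp only [R2, Pi.smul_apply, smul_eq_mul] at h4
      rw [hactn 2 _ (by rw [Matrix.det_fin_two_of]; simp [sq]) x y v hv] at h4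
      simp only [R2, Pi.smul_apply, smul_eq_mul]
      have h5 : F x y v = g x y (col v) := by simp [hF, hv]
      rw [h5]
      field_simp
      linear_combination h4
  have hF0 : F = 0 := by
    apply h F (a / χ) (c / χ ^ 2) hFs (fun x y => by simp [hF]) hFT hFR
    field_simp
    linear_combination hac
  -- contradiction
  apply hgne
  set H2 : Matrix (Fin 2) (Fin 2) (ZMod r) := H1 * t d1⁻¹ with hH2
  have hdet2 : H2.det = 1 := by
    rw [hH2, Matrix.det_mul, htdet, ← hd1, mul_inv_cancel₀ hd10]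
  set v : Fin 2 → ZMod r := ![H2 0 0, H2 1 0] with hv
  have hvne : v ≠ 0 := by
    intro h1
    have h2 : H2 0 0 = 0 := congrFun h1 0
    have h3 : H2 1 0 = 0 := congrFun h1 1
    rw [Matrix.det_fin_two, h2, h3, zero_mul, mul_zero, sub_zero] at hdet2
    exact zero_ne_one hdet2
  have h5 : g x1 y1 (col v) = 0 := by
    have h6 := congrFun (congrFun (congrFun hF0 x1) y1) v
    simpa [hF, hvne] using h6
  rw [← h5]
  apply hcol
  · exact det_col hvne
  · exact hdet2
  · rw [col_zero_zero]
    rfl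
  · rw [col_one_zero]
    rfl

end Pool.Agent.Helper44.MT
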