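import Pool.Agent.Helper44.MT.Column

/-!
# Lowering the level
-/

set_option autoImplicit false

namespace Pool.Agent.Helper44.MT

open Matrix

/-- Common fixed vectors of commuting operators of order `r` in characteristic `r`. -/
theorem exists_fix_finset {A V ι : Type*} [Field A] [AddCommGroup V] [Module A V] {r : ℕ}
    [Fact r.Prime] [CharP A r] (S : ι → Module.End A V) (hS : ∀ i, S i ^ r = 1)
    (hc : ∀ i j, Commute (S i) (S j)) (W : Submodule A V) (hW : ∀ i, ∀ v ∈ W, S i v ∈ W)
    (v : V) (hv : v ∈ W) (hv0 : v ≠ 0) (s : Finset ι) :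
    ∃ w ∈ W, w ≠ 0 ∧ ∀ i ∈ s, S i w = w := by
  classical
  induction s using Finset.induction_on with
  | empty => exact ⟨v, hv, hv0, by simp⟩
  | insert i s _ ih =>
    obtain ⟨w, hw, hw0, hws⟩ := ih
    set W' : Submodule A V := W ⊓ ⨅ j ∈ s, LinearMap.ker (S j - 1) with hW'
    have hmem : ∀ w, w ∈ W' ↔ w ∈ W ∧ ∀ j ∈ s, S j w = w := by
      intro w
      simp only [hW', Submodule.mem_inf, Submodule.mem_iInf, LinearMap.mem_ker,
        LinearMap.sub_apply, Module.End.one_apply, sub_eq_zero]
    obtain ⟨w', h1, h2, h3⟩ := exists_fix (S i) (hS i) W' (fun x hx => by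
      rw [hmem] at hx ⊢
      refine ⟨hW i x hx.1, fun j hj => ?_⟩
      have h4 : S j (S i x) = S i (S j x) := by
        rw [← Module.End.mul_apply, (hc j i).eq, Module.End.mul_apply]
      rw [h4, hx.2 j hj]) w ((hmem w).mpr ⟨hw, hws⟩) hw0
    rw [hmem] at h1
    refine ⟨w', h1.1, h2, fun j hj => ?_⟩
    rw [Finset.mem_insert] at hj
    rcases hj with rfl | hj
    · exact h3
    · exact h1.2 j hj

/-- From level `N r` to level `N` if `r` divides `N`, in characteristic `r` and weight two. -/
theorem lemE {A : Type*} [Field A] {r : ℕ} [Fact r.Prime] [CharP A r] {N p : ℕ} [NeZero N]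
    (hr : r ∣ N) (hp : p.Coprime N) (h : Regular2 A (mfull N) p (fun _ => True)) :
    Regular2 A (mfull (N * r)) p (fun _ => True) := by
  classical
  intro f a c hf _ hT hR hac
  by_contra hf0
  have hr0 : r ≠ 0 := (Fact.out : r.Prime).ne_zero
  have : NeZero (N * r) := ⟨mul_ne_zero (NeZero.ne N) hr0⟩
  have hpr : p.Coprime (N * r) := Nat.Coprime.mul_right hp (Nat.Coprime.coprime_dvd_right hr hp)
  obtain ⟨g0, hg0, hg0n⟩ := exists_supported hpr hf hT hR hf0
  set n : ZMod (N * r) := ((N : ℕ) : ZMod (N * r)) with hn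
  have hnn : n * n = 0 := by
    rw [hn, ← Nat.cast_mul, ZMod.natCast_eq_zero_iff]
    exact Nat.mul_dvd_mul_left N hr
  have hrn : (r : ZMod (N * r)) * n = 0 := by
    rw [hn, ← Nat.cast_mul, ZMod.natCast_eq_zero_iff, mul_comm]
  set U : Matrix (Fin 2) (Fin 2) (ZMod (N * r)) → Matrix (Fin 2) (Fin 2) (ZMod (N * r)) :=
    fun X => 1 + n • X with hU
  have hUmul : ∀ X Y, U X * U Y = U (X + Y) := by
    intro X Y
    simp only [hU, Matrix.mul_add, Matrix.add_mul, Matrix.mul_one, Matrix.one_mul,
      Matrix.smul_mul, Matrix.mul_smul, smul_smul, hnn, zero_smul, smul_add]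
    abel
  have hU0 : U 0 = 1 := by simp [hU]
  have hUdet : ∀ X, IsUnit (U X).det := by
    intro X
    have h1 : (U X).det * (U (-X)).det = 1 := by
      rw [← Matrix.det_mul, hUmul, add_neg_cancel, hU0, Matrix.det_one]
    exact IsUnit.of_mul_eq_one _ h1
  have hUpow : ∀ X (k : ℕ), U X ^ k = U ((k : ZMod (N * r)) • X) := by
    intro X k
    induction k with
    | zero => simp [hU0]
    | succ k ih =>
      rw [pow_succ, ih, hUmul]
      congr 1
      push_cast
      rw [add_smul, one_smul]
  have hSr : ∀ X, (rtrans (A := A) (U X)) ^ r = 1 := by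
    intro X
    rw [rtrans_pow, hUpow]
    have h1 : U ((r : ZMod (N * r)) • X) = 1 := by
      simp only [hU, smul_smul]
      rw [mul_comm n, hrn, zero_smul, add_zero]
    rw [h1]
    ext f x y H
    rw [rtrans_apply, Matrix.mul_one]
    rfl
  have hSc : ∀ X Y, Commute (rtrans (A := A) (U X)) (rtrans (U Y)) := by
    intro X Y
    ext f x y H
    rw [Module.End.mul_apply, Module.End.mul_apply, rtrans_apply, rtrans_apply, rtrans_apply,
      rtrans_apply, Matrix.mul_assoc, Matrix.mul_assoc, hUmul, hUmul, add_comm]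
  obtain ⟨v, hv, hv0, hvfix⟩ := exists_fix_finset (fun X => rtrans (A := A) (U X)) hSr hSc
    (eigenSpace (N * r) p a c) (fun X w hw => rtrans_mem (hUdet X) hw) g0 hg0 hg0n Finset.univ
  obtain ⟨hvs, hvT, hvR, hvsupp⟩ := hv
  have hvU : ∀ X x y H, v x y (H * U X) = v x y H := by
    intro X x y H
    exact congrFun (congrFun (congrFun (hvfix X (Finset.mem_univ X)) x) y) H
  -- reduction and lifting
  have hdvd : N ∣ N * r := dvd_mul_right N r
  set φ : ZMod (N * r) →+* ZMod N := ZMod.castHom hdvd (ZMod N) with hφ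
  have hker : ∀ z : ZMod (N * r), φ z = 0 → ∃ w, z = n * w := by
    intro z hz
    have h1 : ((z.val : ℕ) : ZMod (N * r)) = z := ZMod.natCast_zmod_val z
    rw [← h1, map_natCast, ZMod.natCast_eq_zero_iff] at hz
    obtain ⟨k, hk⟩ := hz
    refine ⟨(k : ZMod (N * r)), ?_⟩
    rw [← h1, hk, Nat.cast_mul]
  have hunit : ∀ z : ZMod (N * r), IsUnit z ↔ IsUnit (φ z) := by
    intro z
    have h1 : ((z.val : ℕ) : ZMod (N * r)) = z := ZMod.natCast_zmod_val z
    rw [← h1, map_natCast, ZMod.isUnit_iff_coprime, ZMod.isUnit_iff_coprime,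
      Nat.coprime_mul_iff_right]
    exact ⟨fun h => h.1, fun h => ⟨h, Nat.Coprime.coprime_dvd_right hr h⟩⟩
  set lift : Matrix (Fin 2) (Fin 2) (ZMod N) → Matrix (Fin 2) (Fin 2) (ZMod (N * r)) := fun H =>
    H.map (fun z => ((z.val : ℕ) : ZMod (N * r))) with hlift
  have hred : ∀ H : Matrix (Fin 2) (Fin 2) (ZMod N), (lift H).map φ = H := by
    intro H
    ext i j
    simp only [hlift, Matrix.map_apply, map_natCast, ZMod.natCast_zmod_val]
  have hmapdet : ∀ H : Matrix (Fin 2) (Fin 2) (ZMod (N * r)), (H.map φ).det = φ H.det := by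
    intro H
    exact (RingHom.map_det φ H).symm
  have hkey : ∀ (H H' : Matrix (Fin 2) (Fin 2) (ZMod (N * r))), IsUnit H.det →
      H.map φ = H'.map φ → ∀ x y, v x y H' = v x y H := by
    intro H H' hH hHH x y
    have h1 : ∀ i j, ∃ w, H' i j - H i j = n * w := by
      intro i j
      apply hker
      have h2 := congrFun (congrFun hHH i) j
      simp only [Matrix.map_apply] at h2
      rw [map_sub, h2, sub_self]
    choose Z hZ using h1
    have h3 : H' = H * U (H⁻¹ * Matrix.of Z) := by
      have h4 : H * H⁻¹ = 1 := Matrix.mul_nonsing_inv H hH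
      simp only [hU, Matrix.mul_add, Matrix.mul_one, Matrix.mul_smul]
      rw [← Matrix.mul_assoc, h4, Matrix.one_mul]
      ext i j
      simp only [Matrix.add_apply, Matrix.smul_apply, Matrix.of_apply, smul_eq_mul, ← hZ]
      ring
    rw [h3, hvU]
  set F : Cochain2 (Matrix (Fin 2) (Fin 2) (ZMod N)) A := fun x y H =>
    if IsUnit H.det then v x y (lift H) else 0 with hF
  have hmapint : ∀ (δ : Matrix (Fin 2) (Fin 2) ℤ) (H : Matrix (Fin 2) (Fin 2) (ZMod (N * r))),
      (mfull (N * r) δ H).map φ = mfull N δ (H.map φ) := by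
    intro δ H
    simp only [mfull]
    rw [Matrix.map_mul]
    congr 1
    ext i j
    simp
  have hact : ∀ δ : Matrix (Fin 2) (Fin 2) ℤ, IsUnit ((δ.det : ℤ) : ZMod N) → ∀ x y H,
      act2 (mfull N) δ F x y H = if IsUnit H.det then act2 (mfull (N * r)) δ v x y (lift H)
        else 0 := by
    intro δ hδ x y H
    have h5 : (δ.map (Int.cast : ℤ → ZMod N)).det = ((δ.det : ℤ) : ZMod N) :=
      (RingHom.map_det (Int.castRingHom (ZMod N)) δ).symm
    have h6 : (mfull N δ H).det = ((δ.det : ℤ) : ZMod N) * H.det := by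
      rw [mfull, Matrix.det_mul, h5]
    have h7 : IsUnit (mfull N δ H).det ↔ IsUnit H.det := by
      rw [h6, IsUnit.mul_iff, and_iff_right hδ]
    simp only [act2, hF, h7]
    split_ifs with hu
    · apply hkey
      · rw [hunit, ← hmapdet, hmapint, hred, h7]
        exact hu
      · rw [hmapint, hred, hred]
    · rfl
  have hpu : IsUnit ((p : ℕ) : ZMod N) := (ZMod.isUnit_iff_coprime p N).mpr hp
  have hF0 : F = 0 := by
    refine h F a c ⟨fun y h => ?_, fun x h => ?_, fun x y z hx hy hz h => ?_,
      fun k hk x y h => ?_, fun δ hδ => ?_⟩ trivial ?_ ?_ hac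
    · simp [hF, hvs.zero_left]
    · simp [hF, hvs.zero_right]
    · simp only [hF]
      split_ifs
      · exact hvs.trans x y z hx hy hz _
      · simp
    · simp only [hF, hvs.scale k hk]
    · funext x y H
      rw [hact δ (by rw [hδ]; simp), hvs.inv δ hδ]
    · funext x y H
      have h4 := congrFun (congrFun (congrFun hvT x) y) (lift H)
      simp only [T2, Pi.add_apply, Finset.sum_apply, Pi.smul_apply] at h4
      simp only [T2, Pi.add_apply, Finset.sum_apply, Pi.smul_apply]
      rw [hact _ (by rw [Matrix.det_fin_two_of]; simpa using hpu), Finset.sum_congr rfl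
        (fun i _ => hact _ (by rw [Matrix.det_fin_two_of]; simpa using hpu) x y H)]
      simp only [hF]
      split_ifs
      · exact h4
      · simp
    · funext x y H
      have h4 := congrFun (congrFun (congrFun hvR x) y) (lift H)
      simp only [R2, Pi.smul_apply] at h4
      simp only [R2, Pi.smul_apply]
      rw [hact _ (by rw [Matrix.det_fin_two_of]; simpa using hpu)]
      simp only [hF]
      split_ifs
      · exact h4
      · simp
  apply hv0
  funext x y H
  by_cases hH : IsUnit H.det
  · have h1 := congrFun (congrFun (congrFun hF0 x) y) (H.map φ)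
    have h2 : IsUnit (H.map φ).det := by
      rw [hmapdet, ← hunit]
      exact hH
    simp only [hF, h2, if_true, Pi.zero_apply] at h1
    rw [Pi.zero_apply, Pi.zero_apply, Pi.zero_apply, ← h1]
    exact (hkey H (lift (H.map φ)) hH (by rw [hred]) x y).symm
  · exact hvsupp x y H hH

end Pool.Agent.Helper44.MT
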