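import Pool.Agent.Helper44.MT.LemA
import Pool.Agent.Helper44.MT.LemC
import Pool.Agent.Helper44.MT.LemE
import Pool.Agent.Helper79.MT.Frob

/-!
# Regularity in the towers of level `r ^ e`, `r = 3, 5, 7`
-/

set_option autoImplicit false

namespace Pool.Agent.Helper44.MT

theorem coprime_of_pow {r : ℕ} [Fact r.Prime] (hr : r = 3 ∨ r = 5 ∨ r = 7) {p m : ℕ}
    (hm : (p : ZMod r) ^ m = -1) : p.Coprime r := by
  have h1 : ¬ r ∣ p := by
    intro h
    have h2 : (p : ZMod r) = 0 := (ZMod.natCast_eq_zero_iff p r).mpr h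
    rcases Nat.eq_zero_or_pos m with rfl | hm0
    · rw [pow_zero] at hm
      have h3 : (2 : ZMod r) = 0 := by linear_combination hm
      have h4 : ((2 : ℕ) : ZMod r) = 0 := by simpa using h3
      rw [ZMod.natCast_eq_zero_iff] at h4
      rcases hr with rfl | rfl | rfl <;> norm_num at h4
    · rw [h2, zero_pow hm0.ne'] at hm
      have h3 : (1 : ZMod r) = 0 := by linear_combination hm
      exact one_ne_zero h3
  exact ((Nat.Prime.coprime_iff_not_dvd Fact.out).mpr h1).symm

/-- Propagation: from weight two, level `M` and characteristic `r`, to all weights and all levels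
`M r ^ e` in characteristic zero. -/
theorem propagation {r : ℕ} [Fact r.Prime] {M p : ℕ} [NeZero M] (hM : r ∣ M) (hp : p.Coprime M)
    (h : Regular2 (AlgebraicClosure (ZMod r)) (mfull M) p (fun _ => True))
    {K : Type*} [Field K] [CharZero K] (k e : ℕ) : Regular K k (M * r ^ e) p := by
  have hr0 : r ≠ 0 := (Fact.out : r.Prime).ne_zero
  have hpr : p.Coprime r := Nat.Coprime.coprime_dvd_right hM hp
  have h1 : ∀ n : ℕ, Regular2 (AlgebraicClosure (ZMod r)) (mfull (M * r ^ n)) p
      (fun _ => True) := by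
    intro n
    induction n with
    | zero => rw [pow_zero, mul_one]; exact h
    | succ n ih =>
      rw [pow_succ, ← mul_assoc]
      have : NeZero (M * r ^ n) := ⟨mul_ne_zero (NeZero.ne M) (pow_ne_zero _ hr0)⟩
      exact lemE (dvd_mul_of_dvd_left hM _) (Nat.Coprime.mul_right hp (Nat.Coprime.pow_right n hpr)) ih
  have : NeZero (M * r ^ e) := ⟨mul_ne_zero (NeZero.ne M) (pow_ne_zero _ hr0)⟩
  exact lemA (lemW (dvd_mul_of_dvd_left hM _) (h1 e))

/-- The propagation, or the towers `r ^ e` for `r = 3, 5, 7`. -/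
theorem regular_main {r p M : ℕ} [Fact r.Prime] (hM : r ∣ M) (hM0 : M ≠ 0) (hp : p.Prime)
    (hpM : p.Coprime M)
    (h : (M = r ∧ (r = 3 ∨ r = 5 ∨ r = 7) ∧ ∃ m : ℕ, r ∣ p ^ m + 1) ∨
      Regular (AlgebraicClosure (ZMod r)) 2 M p)
    {K : Type*} [Field K] [CharZero K] (k e : ℕ) : Regular K k (M * r ^ e) p := by
  have : NeZero M := ⟨hM0⟩
  rcases h with ⟨rfl, hr, m, hm⟩ | h
  · have hm' : (p : ZMod M) ^ m = -1 := by
      rw [← ZMod.natCast_eq_zero_iff] at hm
      push_cast at hm
      exact eq_neg_of_add_eq_zero_left hm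
    exact propagation (dvd_refl M) hpM (lemC hpM (lemD hr hp hm')) k e
  · exact propagation hM hpM (lemV h) k e

/-- The towers `r ^ e`. -/
theorem regular_tower {r : ℕ} (hr : r = 3 ∨ r = 5 ∨ r = 7) {p m : ℕ} (hp : p.Prime)
    (hm : r ∣ p ^ m + 1) {K : Type*} [Field K] [CharZero K] (k e : ℕ) (he : 0 < e) :
    Regular K k (r ^ e) p := by
  have : Fact r.Prime := ⟨by rcases hr with rfl | rfl | rfl <;> norm_num⟩
  have : NeZero r := ⟨(Fact.out : r.Prime).ne_zero⟩
  have hm' : (p : ZMod r) ^ m = -1 := by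
    rw [← ZMod.natCast_eq_zero_iff] at hm
    push_cast at hm
    exact eq_neg_of_add_eq_zero_left hm
  have hcop := coprime_of_pow hr hm'
  obtain ⟨e, rfl⟩ : ∃ n, e = n + 1 := ⟨e - 1, by omega⟩
  rw [pow_succ, mul_comm]
  exact propagation (dvd_refl r) hcop (lemC hcop (lemD hr hp hm')) k e

end Pool.Agent.Helper44.MT
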